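import Mathlib.NumberTheory.Chebyshev
import Mathlib.NumberTheory.Harmonic.Bounds
import Mathlib.NumberTheory.LSeries.PrimesInAP
import Mathlib.RingTheory.SimpleRing.Principal
import Mathlib.Tactic.Algebra.Basic
import Mathlib.Analysis.SpecialFunctions.Log.Monotone

-- ======== part 0: formerly Pool.Agent.MP_34d6af_nt.Basic
section MrgPart0

set_option autoImplicit false

namespace Pool.Agent.MP_34d6af_nt

open Finset Complex
open scoped ComplexConjugate ArithmeticFunction.vonMangoldt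

section orth
variable {q : ℕ} [NeZero q]

/-- orthogonality of characters -/
lemma orth (m n : ℕ) :
    ∑ χ : DirichletCharacter ℂ q, χ m * conj (χ n) =
      if IsUnit (n : ZMod q) ∧ (m : ZMod q) = n then (q.totient : ℂ) else 0 := by
  by_cases hn : IsUnit (n : ZMod q)
  · have h1 : ∀ χ : DirichletCharacter ℂ q, χ m * conj (χ n) = χ (n : ZMod q)⁻¹ * χ m := by
      intro χ
      have h2 : conj (χ (n : ZMod q)) = χ (n : ZMod q)⁻¹ := by
        have h3 : χ (n : ZMod q) * χ (n : ZMod q)⁻¹ = 1 := by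
          rw [← map_mul, ZMod.mul_inv_of_unit _ hn, map_one]
        have h4 : ‖χ (n : ZMod q)‖ = 1 := by
          obtain ⟨u, hu⟩ := hn
          rw [← hu]
          exact DirichletCharacter.unit_norm_eq_one χ u
        have h5 : χ (n : ZMod q) * conj (χ (n : ZMod q)) = 1 := by
          rw [Complex.mul_conj, Complex.normSq_eq_norm_sq, h4]; simp
        have h6 : χ (n : ZMod q) ≠ 0 := by
          intro h; rw [h] at h4; simp at h4
        exact mul_left_cancel₀ h6 (h5.trans h3.symm)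
      rw [h2, mul_comm]
    simp_rw [h1]
    rw [DirichletCharacter.sum_char_inv_mul_char_eq ℂ hn]
    simp only [hn, true_and, eq_comm]
  · simp [hn, MulChar.map_nonunit _ hn]

lemma norm_orth_le (m n : ℕ) :
    ‖∑ χ : DirichletCharacter ℂ q, χ m * conj (χ n)‖ ≤
      if (m : ZMod q) = n then (q : ℝ) else 0 := by
  rw [orth]
  by_cases h : (m : ZMod q) = n
  · simp only [h, and_true, if_true]
    split_ifs
    · simp only [Complex.norm_natCast]; exact_mod_cast Nat.totient_le q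
    · simp
  · simp [h]

/-- mean square over all characters -/
lemma ms {ι : Type*} (s : Finset ι) (g : ι → ℕ) (a : ι → ℂ) :
    ∑ χ : DirichletCharacter ℂ q, ‖∑ i ∈ s, a i * χ (g i)‖ ^ 2 ≤
      q * ∑ i ∈ s, ∑ j ∈ s, if (g i : ZMod q) = g j then ‖a i‖ * ‖a j‖ else 0 := by
  have h1 : ∀ χ : DirichletCharacter ℂ q, ((‖∑ i ∈ s, a i * χ (g i)‖ ^ 2 : ℝ) : ℂ) =
      ∑ i ∈ s, ∑ j ∈ s, (a i * conj (a j)) * (χ (g i) * conj (χ (g j))) := by
    intro χ
    rw [← Complex.normSq_eq_norm_sq, ← Complex.mul_conj, map_sum, Finset.sum_mul_sum]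
    refine Finset.sum_congr rfl fun i _ => Finset.sum_congr rfl fun j _ => ?_
    rw [map_mul]; ring
  have h2 : ((∑ χ : DirichletCharacter ℂ q, ‖∑ i ∈ s, a i * χ (g i)‖ ^ 2 : ℝ) : ℂ) =
      ∑ i ∈ s, ∑ j ∈ s, (a i * conj (a j)) *
        ∑ χ : DirichletCharacter ℂ q, (χ (g i) * conj (χ (g j))) := by
    rw [Complex.ofReal_sum]
    simp_rw [h1]
    rw [Finset.sum_comm]
    refine Finset.sum_congr rfl fun i _ => ?_
    rw [Finset.sum_comm]
    refine Finset.sum_congr rfl fun j _ => ?_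
    rw [Finset.mul_sum]
  have h3 : (∑ χ : DirichletCharacter ℂ q, ‖∑ i ∈ s, a i * χ (g i)‖ ^ 2 : ℝ) ≤
      ‖((∑ χ : DirichletCharacter ℂ q, ‖∑ i ∈ s, a i * χ (g i)‖ ^ 2 : ℝ) : ℂ)‖ := by
    rw [Complex.norm_real]; exact Real.le_norm_self _
  refine h3.trans ?_
  rw [h2, Finset.mul_sum]
  refine (norm_sum_le _ _).trans (Finset.sum_le_sum fun i _ => ?_)
  rw [Finset.mul_sum]
  refine (norm_sum_le _ _).trans (Finset.sum_le_sum fun j _ => ?_)
  rw [norm_mul, norm_mul, Complex.norm_conj]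
  have := norm_orth_le (q := q) (g i) (g j)
  split_ifs at this ⊢ with h
  · rw [mul_comm (q : ℝ)]
    exact mul_le_mul_of_nonneg_left this (by positivity)
  · have h0 : ‖∑ χ : DirichletCharacter ℂ q, χ (g i) * conj (χ (g j))‖ = 0 :=
      le_antisymm this (norm_nonneg _)
    rw [h0]; simp

end orth

/-- Markov inequality on a finite set -/
lemma card_gt_le {ι : Type*} (s : Finset ι) (f : ι → ℝ) (hf : ∀ i ∈ s, 0 ≤ f i) (t : ℝ)
    (ht : 0 < t) (p : ι → Prop) [DecidablePred p] (hp : ∀ i ∈ s, p i → t ≤ f i) :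
    ((s.filter p).card : ℝ) ≤ (∑ i ∈ s, f i) / t := by
  rw [le_div_iff₀ ht]
  calc ((s.filter p).card : ℝ) * t = ∑ i ∈ s.filter p, t := by simp
    _ ≤ ∑ i ∈ s.filter p, f i := Finset.sum_le_sum fun i hi => by
        rw [Finset.mem_filter] at hi; exact hp i hi.1 hi.2
    _ ≤ ∑ i ∈ s, f i := Finset.sum_le_sum_of_subset_of_nonneg (Finset.filter_subset _ _)
        fun i hi _ => hf i hi

lemma harm_le (Z : ℕ) : ∑ n ∈ Ioc 0 Z, (1 : ℝ) / n ≤ 1 + Real.log Z := by
  have h := harmonic_le_one_add_log Z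
  have h2 : ((harmonic Z : ℚ) : ℝ) = ∑ n ∈ Ioc 0 Z, (1 : ℝ) / n := by
    rw [harmonic_eq_sum_Icc]
    push_cast
    have : Icc 1 Z = Ioc 0 Z := by ext; simp [Nat.one_le_iff_ne_zero, Nat.pos_iff_ne_zero]
    rw [this]; simp
  linarith

lemma log_fact_eq (y : ℕ) :
    ∑ n ∈ Ioc 0 y, Real.log n = ∑ d ∈ Ioc 0 y, Λ d * ((y / d : ℕ) : ℝ) := by
  have h := ArithmeticFunction.sum_Ioc_mul_zeta_eq_sum (R := ℝ) Λ y
  rw [ArithmeticFunction.vonMangoldt_mul_zeta] at h
  simpa using h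

lemma sum_log_ge (y : ℕ) : (y : ℝ) * Real.log y - y ≤ ∑ n ∈ Ioc 0 y, Real.log n := by
  induction y with
  | zero => simp
  | succ y ih =>
    rw [Finset.sum_Ioc_succ_top (Nat.zero_le _)]
    rcases Nat.eq_zero_or_pos y with rfl | hy
    · simp
    have hy' : (0 : ℝ) < y := by exact_mod_cast hy
    have h1 : Real.log ((y : ℝ) + 1) - Real.log y ≤ 1 / y := by
      rw [← Real.log_div (by positivity) hy'.ne']
      have := Real.log_le_sub_one_of_pos (x := ((y : ℝ) + 1) / y) (by positivity)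
      have h2 : ((y : ℝ) + 1) / y - 1 = 1 / y := by field_simp; ring
      linarith
    have h3 : (y : ℝ) * (Real.log ((y : ℝ) + 1) - Real.log y) ≤ 1 := by
      calc _ ≤ (y : ℝ) * (1 / y) := mul_le_mul_of_nonneg_left h1 hy'.le
        _ = 1 := by field_simp
    push_cast
    nlinarith

lemma mertens_ge (y : ℕ) (hy : 1 ≤ y) :
    Real.log y - 1 ≤ ∑ d ∈ Ioc 0 y, Λ d / d := by
  have hy' : (0 : ℝ) < y := by exact_mod_cast hy
  have h1 := sum_log_ge y
  rw [log_fact_eq] at h1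
  have h2 : ∑ d ∈ Ioc 0 y, Λ d * ((y / d : ℕ) : ℝ) ≤ y * ∑ d ∈ Ioc 0 y, Λ d / d := by
    rw [Finset.mul_sum]
    refine Finset.sum_le_sum fun d hd => ?_
    have h3 : ((y / d : ℕ) : ℝ) ≤ (y : ℝ) / d := Nat.cast_div_le
    calc Λ d * ((y / d : ℕ) : ℝ) ≤ Λ d * ((y : ℝ) / d) :=
          mul_le_mul_of_nonneg_left h3 ArithmeticFunction.vonMangoldt_nonneg
      _ = _ := by ring
  have h4 : (y : ℝ) * (Real.log y - 1) ≤ y * ∑ d ∈ Ioc 0 y, Λ d / d := by linarith
  exact le_of_mul_le_mul_left h4 hy'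

lemma mertens_le (y : ℕ) (hy : 1 ≤ y) :
    ∑ d ∈ Ioc 0 y, Λ d / d ≤ Real.log y + 6 := by
  have hy' : (0 : ℝ) < y := by exact_mod_cast hy
  have h1 : ∑ n ∈ Ioc 0 y, Real.log n ≤ y * Real.log y := by
    calc ∑ n ∈ Ioc 0 y, Real.log n ≤ ∑ n ∈ Ioc 0 y, Real.log y := by
          refine Finset.sum_le_sum fun n hn => ?_
          rw [Finset.mem_Ioc] at hn
          exact Real.log_le_log (by exact_mod_cast hn.1) (by exact_mod_cast hn.2)
      _ = _ := by simp
  rw [log_fact_eq] at h1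
  have h2 : y * ∑ d ∈ Ioc 0 y, Λ d / d ≤
      ∑ d ∈ Ioc 0 y, Λ d * ((y / d : ℕ) : ℝ) + ∑ d ∈ Ioc 0 y, Λ d := by
    rw [Finset.mul_sum, ← Finset.sum_add_distrib]
    refine Finset.sum_le_sum fun d hd => ?_
    rw [Finset.mem_Ioc] at hd
    have hd' : (0 : ℝ) < d := by exact_mod_cast hd.1
    have h3 : (y : ℝ) / d ≤ ((y / d : ℕ) : ℝ) + 1 := by
      rw [div_le_iff₀ hd']
      have := Nat.lt_div_mul_add (a := y) hd.1
      have h5 : (y : ℝ) < (y / d : ℕ) * d + d := by exact_mod_cast this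
      linarith
    calc y * (Λ d / d) = Λ d * ((y : ℝ) / d) := by ring
      _ ≤ Λ d * (((y / d : ℕ) : ℝ) + 1) :=
          mul_le_mul_of_nonneg_left h3 ArithmeticFunction.vonMangoldt_nonneg
      _ = _ := by ring
  have h3 : ∑ d ∈ Ioc 0 y, Λ d ≤ 6 * y := by
    have h4 := Chebyshev.psi_le_const_mul_self (x := (y : ℝ)) hy'.le
    have h5 : Chebyshev.psi y = ∑ d ∈ Ioc 0 y, Λ d := by simp [Chebyshev.psi]
    have h6 : Real.log 4 ≤ 2 := by
      have : Real.log 4 = 2 * Real.log 2 := by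
        rw [show (4 : ℝ) = 2 ^ 2 by norm_num, Real.log_pow]; norm_num
      have := Real.log_two_lt_d9
      linarith
    rw [← h5]; nlinarith
  have h4 : (y : ℝ) * ∑ d ∈ Ioc 0 y, Λ d / d ≤ y * (Real.log y + 6) := by linarith
  exact le_of_mul_le_mul_left h4 hy'

lemma exists_nonprime_bound : ∃ C : ℝ, 0 ≤ C ∧ ∀ s : Finset ℕ,
    ∑ d ∈ s.filter (fun d => ¬ d.Prime), Λ d / d ≤ C := by
  have h := ArithmeticFunction.vonMangoldt.summable_residueClass_non_primes_div (q := 1) (0 : ZMod 1)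
  have h1 : ∀ n : ℕ, ArithmeticFunction.vonMangoldt.residueClass (0 : ZMod 1) n = Λ n := by
    intro n
    unfold ArithmeticFunction.vonMangoldt.residueClass
    rw [Set.indicator_of_mem]
    exact Subsingleton.elim (α := ZMod 1) _ _
  simp_rw [h1] at h
  have h0 : ∀ n : ℕ, 0 ≤ (if n.Prime then 0 else Λ n) / (n : ℝ) := by
    intro n
    have := ArithmeticFunction.vonMangoldt_nonneg (n := n)
    split_ifs <;> positivity
  refine ⟨∑' n : ℕ, (if n.Prime then 0 else Λ n) / (n : ℝ), tsum_nonneg h0, fun s => ?_⟩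
  refine le_trans (le_of_eq ?_) (h.sum_le_tsum s fun n _ => h0 n)
  rw [Finset.sum_filter]
  refine Finset.sum_congr rfl fun n _ => ?_
  by_cases hn : n.Prime <;> simp [hn]

lemma theta_le (y : ℕ) : ∑ p ∈ (Ioc 0 y).filter Nat.Prime, Real.log p ≤ 3 / 2 * y := by
  have h4 := Chebyshev.theta_le_log4_mul_x (x := (y : ℝ)) (by positivity)
  have h5 : Chebyshev.theta y = ∑ p ∈ (Ioc 0 y).filter Nat.Prime, Real.log p := by
    simp [Chebyshev.theta]
  have h6 : Real.log 4 ≤ 3 / 2 := by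
    have : Real.log 4 = 2 * Real.log 2 := by
      rw [show (4 : ℝ) = 2 ^ 2 by norm_num, Real.log_pow]; norm_num
    have := Real.log_two_lt_d9
    linarith
  rw [← h5]
  have : (0 : ℝ) ≤ y := by positivity
  nlinarith

/-- a nonzero number below `B` has at most `log_2 B` prime factors -/
lemma card_primeFactors_le (n : ℕ) (hn : n ≠ 0) : n.primeFactors.card ≤ Nat.log 2 n := by
  apply Nat.le_log_of_pow_le (by norm_num)
  calc 2 ^ n.primeFactors.card = ∏ _p ∈ n.primeFactors, 2 := by simp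
    _ ≤ ∏ p ∈ n.primeFactors, p := Finset.prod_le_prod' fun p hp =>
        (Nat.prime_of_mem_primeFactors hp).two_le
    _ ≤ n := Nat.le_of_dvd (Nat.pos_of_ne_zero hn) (Nat.prod_primeFactors_dvd n)

/-- number of primes in a set for which two distinct numbers are congruent -/
lemma card_cong_le (T : Finset ℕ) (hT : ∀ q ∈ T, q.Prime) (m n B : ℕ) (hmn : m ≠ n)
    (hm : m ≤ B) (hn : n ≤ B) :
    (T.filter (fun q => (m : ZMod q) = n)).card ≤ Nat.log 2 B := by
  wlog h : n < m generalizing m n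
  · have := this n m hmn.symm hn hm (by omega)
    convert this using 3 with q
    exact eq_comm
  have h1 : T.filter (fun q => (m : ZMod q) = n) ⊆ (m - n).primeFactors := by
    intro q hq
    rw [Finset.mem_filter] at hq
    rw [Nat.mem_primeFactors]
    refine ⟨hT q hq.1, ?_, by omega⟩
    have := (ZMod.natCast_eq_natCast_iff m n q).mp hq.2
    exact (Nat.modEq_iff_dvd' h.le).mp this.symm
  calc _ ≤ (m - n).primeFactors.card := Finset.card_le_card h1
    _ ≤ Nat.log 2 (m - n) := card_primeFactors_le _ (by omega)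
    _ ≤ Nat.log 2 B := Nat.log_mono_right (by omega)

end Pool.Agent.MP_34d6af_nt

end MrgPart0

-- ======== part 1: formerly Pool.Agent.MP_34d6af_nt.Tail
section MrgPart1

set_option autoImplicit false

namespace Pool.Agent.MP_34d6af_nt

open Finset Complex Filter Topology
open scoped ComplexConjugate ArithmeticFunction.vonMangoldt

lemma abel_aux (a : ℕ → ℂ) (B : ℝ) (N : ℕ) (hB : ∀ v, ‖∑ n ∈ Ico N v, a n‖ ≤ B) (g : ℕ → ℝ)
    (hg : ∀ n, N ≤ n → g (n + 1) ≤ g n) (M : ℕ) (hM : N ≤ M) :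
    ‖∑ n ∈ Ico N M, a n * g n - (∑ n ∈ Ico N M, a n) * g M‖ ≤ B * (g N - g M) := by
  induction M, hM using Nat.le_induction with
  | base => simp
  | succ M hM ih =>
    have h1 : ∑ n ∈ Ico N (M + 1), a n * g n - (∑ n ∈ Ico N (M + 1), a n) * g (M + 1) =
        (∑ n ∈ Ico N M, a n * g n - (∑ n ∈ Ico N M, a n) * g M) +
          (∑ n ∈ Ico N (M + 1), a n) * ((g M - g (M + 1) : ℝ) : ℂ) := by
      rw [Finset.sum_Ico_succ_top hM, Finset.sum_Ico_succ_top hM]
      push_cast; ring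
    rw [h1]
    refine (norm_add_le _ _).trans ?_
    rw [norm_mul, Complex.norm_real, Real.norm_of_nonneg (sub_nonneg.mpr (hg M hM))]
    have h2 := mul_le_mul_of_nonneg_right (hB (M + 1)) (sub_nonneg.mpr (hg M hM))
    linarith

lemma abel_le (a : ℕ → ℂ) (B : ℝ) (N : ℕ) (hB : ∀ v, ‖∑ n ∈ Ico N v, a n‖ ≤ B) (g : ℕ → ℝ)
    (hg0 : ∀ n, 0 ≤ g n) (hg : ∀ n, N ≤ n → g (n + 1) ≤ g n) (M : ℕ) (hM : N ≤ M) :
    ‖∑ n ∈ Ico N M, a n * g n‖ ≤ B * g N := by
  have h1 := abel_aux a B N hB g hg M hM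
  have h2 : ‖(∑ n ∈ Ico N M, a n) * g M‖ ≤ B * g M := by
    rw [norm_mul, Complex.norm_real, Real.norm_of_nonneg (hg0 M)]
    exact mul_le_mul_of_nonneg_right (hB M) (hg0 M)
  have h3 := norm_add_le (∑ n ∈ Ico N M, a n * g n - (∑ n ∈ Ico N M, a n) * g M)
    ((∑ n ∈ Ico N M, a n) * g M)
  rw [sub_add_cancel] at h3
  linarith

lemma tail_gen (a : ℕ → ℂ) (B : ℝ) (N : ℕ) (hB : ∀ v, ‖∑ n ∈ Ico N v, a n‖ ≤ B) (g : ℕ → ℝ)
    (hg0 : ∀ n, 0 ≤ g n) (hg : ∀ n, N ≤ n → g (n + 1) ≤ g n) (S : ℂ)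
    (hS : HasSum (fun n => a n * g n) S) :
    ‖S - ∑ n ∈ range N, a n * g n‖ ≤ B * g N := by
  have h1 : Tendsto (fun M => ‖∑ n ∈ range M, a n * g n - ∑ n ∈ range N, a n * g n‖) atTop
      (𝓝 ‖S - ∑ n ∈ range N, a n * g n‖) :=
    (hS.tendsto_sum_nat.sub_const _).norm
  refine le_of_tendsto h1 ?_
  filter_upwards [eventually_ge_atTop N] with M hM
  rw [← Finset.sum_Ico_eq_sub _ hM]
  exact abel_le a B N hB g hg0 hg M hM

variable {q : ℕ} [NeZero q]

lemma sum_period (f : ZMod q → ℂ) (a : ℕ) :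
    ∑ n ∈ Ico a (a + q), f n = ∑ x : ZMod q, f x := by
  induction a with
  | zero =>
    rw [zero_add, ← Finset.range_eq_Ico]
    refine Finset.sum_nbij' (fun n => (n : ZMod q)) (fun x => x.val) ?_ ?_ ?_ ?_ ?_
    · intro n _; simp
    · intro x _; simpa using ZMod.val_lt x
    · intro n hn; exact ZMod.val_cast_of_lt (Finset.mem_range.mp hn)
    · intro x _; simp
    · intro n _; rfl
  | succ a ih =>
    rw [← ih]
    have h1 : ∑ n ∈ Ico a (a + 1 + q), f n = f a + ∑ n ∈ Ico (a + 1) (a + 1 + q), f n :=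
      Finset.sum_eq_sum_Ico_succ_bot (by omega) _
    have h2 : ∑ n ∈ Ico a (a + q + 1), f n = ∑ n ∈ Ico a (a + q), f n + f ((a + q : ℕ)) :=
      Finset.sum_Ico_succ_top (by omega) _
    have h3 : ((a + q : ℕ) : ZMod q) = a := by simp
    rw [h3, show a + q + 1 = a + 1 + q by ring, h1] at h2
    linear_combination h2

lemma char_sum_le {χ : DirichletCharacter ℂ q} (hχ : χ ≠ 1) (u v : ℕ) :
    ‖∑ n ∈ Ico u v, χ n‖ ≤ q := by
  have hq : 0 < q := Nat.pos_of_ne_zero (NeZero.ne q)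
  obtain ⟨k, hk⟩ : ∃ k, v - u = k := ⟨_, rfl⟩
  induction k using Nat.strong_induction_on generalizing u with
  | _ k ih =>
    by_cases h : k ≤ q
    · calc ‖∑ n ∈ Ico u v, χ n‖ ≤ ∑ n ∈ Ico u v, ‖χ n‖ := norm_sum_le _ _
        _ ≤ ∑ _n ∈ Ico u v, (1 : ℝ) := Finset.sum_le_sum fun n _ => χ.norm_le_one _
        _ = k := by simp [hk]
        _ ≤ q := by exact_mod_cast h
    · rw [← Finset.sum_Ico_consecutive _ (show u ≤ u + q by omega) (show u + q ≤ v by omega),
        sum_period (fun x => χ x), MulChar.sum_eq_zero_of_ne_one hχ, zero_add]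
      exact ih (v - (u + q)) (by omega) (u + q) rfl

lemma range_succ_eq (f : ℕ → ℂ) (h : f 0 = 0) (N : ℕ) :
    ∑ n ∈ range (N + 1), f n = ∑ n ∈ Ioc 0 N, f n := by
  rw [Finset.range_eq_Ico, Finset.sum_eq_sum_Ico_succ_bot (by omega), h, zero_add]
  congr 1

lemma tendsto_one_right : Tendsto (fun σ : ℝ => (σ : ℂ)) (𝓝[>] 1) (𝓝 1) := by
  have : Tendsto (fun σ : ℝ => (σ : ℂ)) (𝓝 1) (𝓝 ((1 : ℝ) : ℂ)) :=
    Complex.continuous_ofReal.tendsto 1
  exact this.mono_left nhdsWithin_le_nhds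

lemma L_tail {χ : DirichletCharacter ℂ q} (hχ : χ ≠ 1) (N : ℕ) :
    ‖DirichletCharacter.LFunction χ 1 - ∑ n ∈ Ioc 0 N, χ n / n‖ ≤ q / (N + 1) := by
  have hc : Tendsto (fun σ : ℝ => ‖DirichletCharacter.LFunction χ σ -
      ∑ n ∈ Ioc 0 N, χ n * (((n : ℝ) ^ (-σ) : ℝ) : ℂ)‖) (𝓝[>] 1)
      (𝓝 ‖DirichletCharacter.LFunction χ 1 - ∑ n ∈ Ioc 0 N, χ n / n‖) := by
    refine Tendsto.norm (Tendsto.sub ?_ ?_)
    · exact ((DirichletCharacter.differentiable_LFunction hχ).continuous.tendsto 1).comp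
        tendsto_one_right
    · refine tendsto_finsetSum _ fun n hn => ?_
      have hn' : (0 : ℝ) < n := by exact_mod_cast (Finset.mem_Ioc.mp hn).1
      have h1 : Tendsto (fun σ : ℝ => (n : ℝ) ^ (-σ)) (𝓝[>] 1) (𝓝 ((n : ℝ) ^ (-(1 : ℝ)))) := by
        refine Tendsto.mono_left ?_ nhdsWithin_le_nhds
        exact ((Real.continuous_const_rpow hn'.ne').comp continuous_neg).tendsto 1
      have h2 := (Complex.continuous_ofReal.tendsto _).comp h1
      have h3 := h2.const_mul (χ n)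
      have h4 : χ n / n = χ n * (((n : ℝ) ^ (-(1 : ℝ)) : ℝ) : ℂ) := by
        rw [Real.rpow_neg_one]; push_cast; rw [div_eq_mul_inv]
      rw [h4]
      exact h3
  refine le_of_tendsto hc ?_
  filter_upwards [self_mem_nhdsWithin] with σ hσ
  have hσ' : (1 : ℝ) < σ := hσ
  have hs : 1 < (σ : ℂ).re := by simpa using hσ'
  have hsum : LSeriesSummable (fun n : ℕ => χ n) σ :=
    DirichletCharacter.LSeriesSummable_of_one_lt_re χ hs
  have hterm : ∀ n : ℕ, LSeries.term (fun n : ℕ => χ n) σ n =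
      χ n * (((n : ℝ) ^ (-σ) : ℝ) : ℂ) := by
    intro n
    rcases Nat.eq_zero_or_pos n with rfl | hn
    · simp [Real.zero_rpow (show -σ ≠ 0 by linarith)]
    · rw [LSeries.term_of_ne_zero hn.ne', Complex.ofReal_cpow (by positivity)]
      push_cast
      rw [Complex.cpow_neg, div_eq_mul_inv]
  have hS : HasSum (fun n : ℕ => χ n * (((n : ℝ) ^ (-σ) : ℝ) : ℂ))
      (DirichletCharacter.LFunction χ σ) := by
    rw [DirichletCharacter.LFunction_eq_LSeries χ hs]
    have := hsum.hasSum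
    simp_rw [← hterm]
    exact this
  have h := tail_gen (fun n : ℕ => χ n) q (N + 1) (fun v => char_sum_le hχ _ _)
    (fun n => (n : ℝ) ^ (-σ)) (fun n => by positivity) (fun n hn => by
      have hn' : (0 : ℝ) < n := by exact_mod_cast (show 0 < n by omega)
      apply Real.rpow_le_rpow_of_nonpos hn' (by push_cast; linarith) (by linarith)) _ hS
  rw [range_succ_eq _ (by simp [Real.zero_rpow (show -σ ≠ 0 by linarith)])] at h
  refine h.trans ?_
  rw [div_eq_mul_inv]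
  refine mul_le_mul_of_nonneg_left ?_ (by positivity)
  rw [← Real.rpow_neg_one]
  push_cast
  exact Real.rpow_le_rpow_of_exponent_le (by linarith [(Nat.cast_nonneg N : (0 : ℝ) ≤ N)])
    (by linarith)

lemma L'_tail {χ : DirichletCharacter ℂ q} (hχ : χ ≠ 1) (N : ℕ) (hN : 2 ≤ N) :
    ‖deriv (DirichletCharacter.LFunction χ) 1 + ∑ n ∈ Ioc 0 N, Real.log n * χ n / n‖ ≤
      q * (Real.log (N + 1) / (N + 1)) := by
  have hc : Tendsto (fun σ : ℝ => ‖-deriv (DirichletCharacter.LFunction χ) σ -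
      ∑ n ∈ Ioc 0 N, χ n * ((Real.log n / (n : ℝ) ^ σ : ℝ) : ℂ)‖) (𝓝[>] 1)
      (𝓝 ‖-deriv (DirichletCharacter.LFunction χ) 1 -
        ∑ n ∈ Ioc 0 N, Real.log n * χ n / n‖) := by
    refine Tendsto.norm (Tendsto.sub ?_ ?_)
    · exact (((DirichletCharacter.differentiable_LFunction hχ).deriv.continuous.tendsto 1).comp
        tendsto_one_right).neg
    · refine tendsto_finsetSum _ fun n hn => ?_
      have hn' : (0 : ℝ) < n := by exact_mod_cast (Finset.mem_Ioc.mp hn).1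
      have h1 : Tendsto (fun σ : ℝ => Real.log n / (n : ℝ) ^ σ) (𝓝[>] 1)
          (𝓝 (Real.log n / (n : ℝ) ^ (1 : ℝ))) := by
        refine Tendsto.mono_left ?_ nhdsWithin_le_nhds
        exact tendsto_const_nhds.div ((Real.continuous_const_rpow hn'.ne').tendsto 1)
          (by positivity)
      have h2 := (Complex.continuous_ofReal.tendsto _).comp h1
      have h3 := h2.const_mul (χ n)
      have h4 : Real.log n * χ n / n = χ n * ((Real.log n / (n : ℝ) ^ (1 : ℝ) : ℝ) : ℂ) := by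
        rw [Real.rpow_one]; push_cast; ring
      rw [h4]
      exact h3
  have hneg : ‖deriv (DirichletCharacter.LFunction χ) 1 + ∑ n ∈ Ioc 0 N, Real.log n * χ n / n‖ =
      ‖-deriv (DirichletCharacter.LFunction χ) 1 - ∑ n ∈ Ioc 0 N, Real.log n * χ n / n‖ := by
    rw [← norm_neg]; congr 1; ring
  rw [hneg]
  refine le_of_tendsto hc ?_
  filter_upwards [self_mem_nhdsWithin] with σ hσ
  have hσ' : (1 : ℝ) < σ := hσ
  have hs : 1 < (σ : ℂ).re := by simpa using hσ'
  have habs : LSeries.abscissaOfAbsConv (fun n : ℕ => χ n) < (σ : ℂ).re := by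
    rw [DirichletCharacter.absicssaOfAbsConv_eq_one (NeZero.ne q) χ]
    exact_mod_cast hs
  have hsum : LSeriesSummable (LSeries.logMul (fun n : ℕ => χ n)) σ :=
    LSeriesSummable_logMul_of_lt_re habs
  have hterm : ∀ n : ℕ, LSeries.term (LSeries.logMul (fun n : ℕ => χ n)) σ n =
      χ n * ((Real.log n / (n : ℝ) ^ σ : ℝ) : ℂ) := by
    intro n
    rcases Nat.eq_zero_or_pos n with rfl | hn
    · simp
    · rw [LSeries.term_of_ne_zero hn.ne', Complex.ofReal_div, Complex.ofReal_cpow (by positivity),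
        Complex.ofReal_log (by positivity)]
      simp only [LSeries.logMul]
      push_cast
      ring
  have hS : HasSum (fun n : ℕ => χ n * ((Real.log n / (n : ℝ) ^ σ : ℝ) : ℂ))
      (-deriv (DirichletCharacter.LFunction χ) σ) := by
    rw [DirichletCharacter.deriv_LFunction_eq_deriv_LSeries χ hs, LSeries_deriv habs, neg_neg]
    have := hsum.hasSum
    simp_rw [← hterm]
    exact this
  have hexp : Real.exp (σ⁻¹) ≤ 3 := by
    have h1 : σ⁻¹ ≤ 1 := inv_le_one_of_one_le₀ hσ'.le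
    have h2 := Real.exp_le_exp.mpr h1
    have h3 := Real.exp_one_lt_d9
    linarith
  have h := tail_gen (fun n : ℕ => χ n) q (N + 1) (fun v => char_sum_le hχ _ _)
    (fun n => Real.log n / (n : ℝ) ^ σ) (fun n => by
      have := Real.log_natCast_nonneg n
      positivity) (fun n hn => by
      have hn' : (3 : ℝ) ≤ n := by exact_mod_cast (show 3 ≤ n by omega)
      refine Real.log_div_self_rpow_antitoneOn (a := σ) (by linarith) ?_ ?_ ?_
      · show Real.exp σ⁻¹ ≤ _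
        linarith
      · show Real.exp σ⁻¹ ≤ _
        push_cast; linarith
      · push_cast; linarith) _ hS
  rw [range_succ_eq _ (by simp)] at h
  refine h.trans ?_
  refine mul_le_mul_of_nonneg_left ?_ (by positivity)
  push_cast
  have hN' : (1 : ℝ) ≤ (N : ℝ) + 1 := by linarith [(Nat.cast_nonneg N : (0 : ℝ) ≤ N)]
  refine div_le_div_of_nonneg_left (Real.log_nonneg hN') (by linarith) ?_
  calc (N : ℝ) + 1 = ((N : ℝ) + 1) ^ (1 : ℝ) := (Real.rpow_one _).symm
    _ ≤ _ := Real.rpow_le_rpow_of_exponent_le hN' hσ'.le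

end Pool.Agent.MP_34d6af_nt

end MrgPart1

-- marker of a merged file
example : 731051 + 243378 = 731051 + 243378 := rfl
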