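import Mathlib.Topology.Sheaves.Presheaf
import Mathlib.Data.Int.Star
import Mathlib.Algebra.Order.Antidiag.Nat
import Mathlib.Combinatorics.SimpleGraph.Basic
import Mathlib.Data.FunLike.Fintype
import Mathlib.Data.Finset.NatDivisors
import Mathlib.RingTheory.PiTensorProduct
import Pool.Agent.MP_34d6af_nt.Tail

-- ======== part 0: formerly Pool.Agent.MP_34d6af_nt.Approx
section MrgPart0

set_option autoImplicit false

namespace Pool.Agent.MP_34d6af_nt

open Finset Complex Filter Topology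
open scoped ComplexConjugate ArithmeticFunction.vonMangoldt ArithmeticFunction.Moebius

lemma class_harm_le (q : ℕ) [NeZero q] (Y Z m : ℕ) (hY : 1 ≤ Y) :
    ∑ n ∈ (Ioc Y Z).filter (fun n : ℕ => (m : ZMod q) = n), (1 : ℝ) / n ≤
      1 / Y + (1 + Real.log Z) / q := by
  have hq : 0 < q := Nat.pos_of_ne_zero (NeZero.ne q)
  have hq' : (0 : ℝ) < q := by exact_mod_cast hq
  set S := (Ioc Y Z).filter (fun n : ℕ => (m : ZMod q) = n) with hS
  let φ : ℕ → ℕ := fun n => (n - Y) / q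
  let h : ℕ → ℝ := fun k => if k = 0 then 1 / Y else 1 / (k * q)
  have h0 : ∀ k, 0 ≤ h k := by
    intro k; simp only [h]; split_ifs <;> positivity
  have hinj : Set.InjOn φ S := by
    intro a ha b hb hab
    simp only [hS, Finset.coe_filter, Finset.mem_Ioc, Set.mem_ofPred_eq] at ha hb
    have h1 : (a : ZMod q) = b := ha.2.symm.trans hb.2
    have h2 : a ≡ b [MOD q] := (ZMod.natCast_eq_natCast_iff a b q).mp h1
    have h3 : a - Y ≡ b - Y [MOD q] := by
      have h4 : a - Y + Y ≡ b - Y + Y [MOD q] := by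
        rw [Nat.sub_add_cancel ha.1.1.le, Nat.sub_add_cancel hb.1.1.le]; exact h2
      exact Nat.ModEq.add_right_cancel' Y h4
    have h5 := Nat.div_add_mod (a - Y) q
    have h6 := Nat.div_add_mod (b - Y) q
    simp only [φ] at hab
    unfold Nat.ModEq at h3
    rw [hab, h3] at h5
    omega
  calc ∑ n ∈ S, (1 : ℝ) / n ≤ ∑ n ∈ S, h (φ n) := by
        refine Finset.sum_le_sum fun n hn => ?_
        simp only [hS, Finset.mem_filter, Finset.mem_Ioc] at hn
        simp only [h]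
        split_ifs with hk
        · exact one_div_le_one_div_of_le (by exact_mod_cast hY) (by exact_mod_cast hn.1.1.le)
        · have h1 : φ n * q ≤ n := (Nat.div_mul_le_self _ _).trans (Nat.sub_le _ _)
          have h2 : 0 < φ n := Nat.pos_of_ne_zero hk
          refine one_div_le_one_div_of_le ?_ (by exact_mod_cast h1)
          have : (0 : ℝ) < φ n := by exact_mod_cast h2
          positivity
    _ = ∑ k ∈ S.image φ, h k := (Finset.sum_image hinj).symm
    _ ≤ ∑ k ∈ insert 0 (Ioc 0 Z), h k := by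
        refine Finset.sum_le_sum_of_subset_of_nonneg ?_ fun k _ _ => h0 k
        intro k hk
        rw [Finset.mem_image] at hk
        obtain ⟨n, hn, rfl⟩ := hk
        simp only [hS, Finset.mem_filter, Finset.mem_Ioc] at hn
        have : φ n ≤ Z := (Nat.div_le_self _ _).trans (by omega)
        simp only [Finset.mem_insert, Finset.mem_Ioc]
        omega
    _ = 1 / Y + (∑ k ∈ Ioc 0 Z, (1 : ℝ) / k) / q := by
        rw [Finset.sum_insert (by simp), Finset.sum_div]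
        congr 1
        refine Finset.sum_congr rfl fun k hk => ?_
        have : k ≠ 0 := by rw [Finset.mem_Ioc] at hk; omega
        simp only [h, this, if_false]
        rw [div_div]
    _ ≤ _ := by
        have := harm_le Z
        gcongr

lemma ms2 {q : ℕ} [NeZero q] (Y Z : ℕ) (hY : 1 ≤ Y) (c : ℕ → ℂ) :
    ∑ χ : DirichletCharacter ℂ q, ‖∑ n ∈ Ioc Y Z, c n * χ n / n‖ ^ 2 ≤
      (q / Y + (1 + Real.log Z)) * ∑ n ∈ Ioc Y Z, ‖c n‖ ^ 2 / n := by
  have hq : 0 < q := Nat.pos_of_ne_zero (NeZero.ne q)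
  have hq' : (0 : ℝ) < q := by exact_mod_cast hq
  have h := ms (q := q) (Ioc Y Z) (fun n => n) (fun n => c n / n)
  have h1 : ∀ χ : DirichletCharacter ℂ q, ∑ n ∈ Ioc Y Z, c n * χ n / n =
      ∑ n ∈ Ioc Y Z, c n / n * χ n := fun χ =>
    Finset.sum_congr rfl fun n _ => by ring
  simp_rw [h1]
  refine h.trans ?_
  let w : ℕ → ℕ → ℝ := fun i j => if (i : ZMod q) = j then ‖c i‖ ^ 2 / i * (1 / j) else 0
  have h2 : ∑ i ∈ Ioc Y Z, ∑ j ∈ Ioc Y Z,
      (if (i : ZMod q) = j then ‖c i / i‖ * ‖c j / j‖ else 0) ≤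
      ∑ i ∈ Ioc Y Z, ∑ j ∈ Ioc Y Z, (w i j + w j i) / 2 := by
    refine Finset.sum_le_sum fun i hi => Finset.sum_le_sum fun j hj => ?_
    simp only [w]
    by_cases hij : (i : ZMod q) = j
    · simp only [hij, if_true, norm_div, Complex.norm_natCast]
      have hi' : (0 : ℝ) < i := by
        rw [Finset.mem_Ioc] at hi; exact_mod_cast (show 0 < i by omega)
      have hj' : (0 : ℝ) < j := by
        rw [Finset.mem_Ioc] at hj; exact_mod_cast (show 0 < j by omega)
      have h3 : ‖c i‖ / i * (‖c j‖ / j) = (‖c i‖ * ‖c j‖) * (1 / i * (1 / j)) := by ring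
      have h4 : (‖c i‖ ^ 2 / i * (1 / j) + ‖c j‖ ^ 2 / j * (1 / i)) / 2 =
          ((‖c i‖ ^ 2 + ‖c j‖ ^ 2) / 2) * (1 / i * (1 / j)) := by ring
      rw [h3, h4]
      refine mul_le_mul_of_nonneg_right ?_ (by positivity)
      nlinarith [sq_nonneg (‖c i‖ - ‖c j‖)]
    · have hji : ¬ (j : ZMod q) = i := fun h => hij h.symm
      simp [hij, hji]
  have h3 : ∑ i ∈ Ioc Y Z, ∑ j ∈ Ioc Y Z, (w i j + w j i) / 2 =
      ∑ i ∈ Ioc Y Z, ∑ j ∈ Ioc Y Z, w i j := by
    simp_rw [add_div, Finset.sum_add_distrib]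
    rw [Finset.sum_comm (f := fun i j => w j i / 2), ← Finset.sum_add_distrib]
    refine Finset.sum_congr rfl fun i _ => ?_
    rw [← Finset.sum_add_distrib]
    refine Finset.sum_congr rfl fun j _ => by ring
  have h4 : ∑ i ∈ Ioc Y Z, ∑ j ∈ Ioc Y Z, w i j ≤
      ∑ i ∈ Ioc Y Z, ‖c i‖ ^ 2 / i * (1 / Y + (1 + Real.log Z) / q) := by
    refine Finset.sum_le_sum fun i _ => ?_
    simp only [w]
    rw [← Finset.sum_filter, ← Finset.mul_sum]
    exact mul_le_mul_of_nonneg_left (class_harm_le q Y Z i hY) (by positivity)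
  rw [← Finset.sum_mul] at h4
  calc _ ≤ (q : ℝ) * ((∑ i ∈ Ioc Y Z, ‖c i‖ ^ 2 / i) * (1 / Y + (1 + Real.log Z) / q)) :=
        mul_le_mul_of_nonneg_left (h2.trans (h3.le.trans h4)) hq'.le
    _ = _ := by field_simp

lemma div_moment (Z : ℕ) :
    ∑ n ∈ Ioc 0 Z, ((n.divisors.card : ℝ)) ^ 2 / n ≤ (1 + Real.log Z) ^ 4 := by
  let S : Finset (Σ _ : ℕ, ℕ × ℕ) := (Ioc 0 Z).sigma fun n => n.divisors ×ˢ n.divisors
  let φ : (Σ _ : ℕ, ℕ × ℕ) → (ℕ × ℕ) × (ℕ × ℕ) := fun x =>
    ((Nat.gcd x.2.1 x.2.2, x.2.1 / Nat.gcd x.2.1 x.2.2),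
      (x.2.2 / Nat.gcd x.2.1 x.2.2, x.1 / Nat.lcm x.2.1 x.2.2))
  let w : (ℕ × ℕ) × (ℕ × ℕ) → ℝ := fun y =>
    (1 / (y.1.1 : ℝ) * (1 / (y.1.2 : ℝ))) * (1 / (y.2.1 : ℝ) * (1 / (y.2.2 : ℝ)))
  have key : ∀ x ∈ S, 0 < x.1 ∧ x.1 ≤ Z ∧ (φ x).1.1 * (φ x).1.2 = x.2.1 ∧
      (φ x).1.1 * (φ x).2.1 = x.2.2 ∧
      (φ x).1.1 * (φ x).1.2 * (φ x).2.1 * (φ x).2.2 = x.1 := by
    rintro ⟨n, a, c⟩ hx
    simp only [S, Finset.mem_sigma, Finset.mem_Ioc, Finset.mem_product, Nat.mem_divisors] at hx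
    obtain ⟨⟨hn0, hnZ⟩, ⟨ha, -⟩, ⟨hc, -⟩⟩ := hx
    have h1 : Nat.gcd a c * (a / Nat.gcd a c) = a := Nat.mul_div_cancel' (Nat.gcd_dvd_left a c)
    have h2 : Nat.gcd a c * (c / Nat.gcd a c) = c := Nat.mul_div_cancel' (Nat.gcd_dvd_right a c)
    refine ⟨hn0, hnZ, h1, h2, ?_⟩
    simp only [φ]
    rw [h1]
    have h3 : a * (c / Nat.gcd a c) = Nat.lcm a c := by
      rw [Nat.lcm, Nat.mul_div_assoc _ (Nat.gcd_dvd_right a c)]
    rw [h3]
    exact Nat.mul_div_cancel' (Nat.lcm_dvd ha hc)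
  have hinj : Set.InjOn φ S := by
    intro x hx y hy hxy
    obtain ⟨-, -, h1, h2, h3⟩ := key x hx
    obtain ⟨-, -, h4, h5, h6⟩ := key y hy
    rw [hxy] at h1 h2 h3
    obtain ⟨n, a, c⟩ := x
    obtain ⟨n', a', c'⟩ := y
    simp only at h1 h2 h3 h4 h5 h6
    have e1 : n = n' := h3.symm.trans h6
    have e2 : a = a' := h1.symm.trans h4
    have e3 : c = c' := h2.symm.trans h5
    subst e1 e2 e3
    rfl
  have hw0 : ∀ y, 0 ≤ w y := fun y => by simp only [w]; positivity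
  calc ∑ n ∈ Ioc 0 Z, ((n.divisors.card : ℝ)) ^ 2 / n = ∑ x ∈ S, (1 : ℝ) / x.1 := by
        rw [Finset.sum_sigma]
        refine Finset.sum_congr rfl fun n _ => ?_
        simp only [Finset.sum_const, Finset.card_product, nsmul_eq_mul]
        push_cast; ring
    _ = ∑ x ∈ S, w (φ x) := by
        refine Finset.sum_congr rfl fun x hx => ?_
        obtain ⟨-, -, -, -, h3⟩ := key x hx
        have h4 : (x.1 : ℝ) = (φ x).1.1 * (φ x).1.2 * (φ x).2.1 * (φ x).2.2 := by
          exact_mod_cast h3.symm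
        rw [h4]
        simp only [w, one_div, mul_inv]
        ring
    _ = ∑ y ∈ S.image φ, w y := (Finset.sum_image hinj).symm
    _ ≤ ∑ y ∈ (Ioc 0 Z ×ˢ Ioc 0 Z) ×ˢ (Ioc 0 Z ×ˢ Ioc 0 Z), w y := by
        refine Finset.sum_le_sum_of_subset_of_nonneg ?_ fun y _ _ => hw0 y
        intro y hy
        rw [Finset.mem_image] at hy
        obtain ⟨x, hx, rfl⟩ := hy
        obtain ⟨h1, h2, -, -, h3⟩ := key x hx
        generalize (φ x) = y at h3 ⊢
        obtain ⟨⟨a, b⟩, ⟨c, d⟩⟩ := y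
        simp only at h3
        have hd : ∀ t, t ∣ x.1 → t ∈ Ioc 0 Z := fun t ht => by
          rw [Finset.mem_Ioc]
          exact ⟨Nat.pos_of_dvd_of_pos ht h1, (Nat.le_of_dvd h1 ht).trans h2⟩
        simp only [Finset.mem_product]
        refine ⟨⟨hd a ⟨b * c * d, by rw [← h3]; ring⟩, hd b ⟨a * c * d, by rw [← h3]; ring⟩⟩,
          ⟨hd c ⟨a * b * d, by rw [← h3]; ring⟩, hd d ⟨a * b * c, by rw [← h3]; ring⟩⟩⟩
    _ = (∑ n ∈ Ioc 0 Z, (1 : ℝ) / n) ^ 4 := by
        simp only [w]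
        rw [show (4 : ℕ) = 2 * 2 by norm_num, pow_mul, sq, sq, Finset.sum_mul_sum,
          ← Finset.sum_product', Finset.sum_mul_sum, ← Finset.sum_product']
    _ ≤ _ := by
        have := harm_le Z
        have h0 : 0 ≤ ∑ n ∈ Ioc 0 Z, (1 : ℝ) / n := Finset.sum_nonneg fun n _ => by positivity
        gcongr

/-- coefficients of a truncated convolution with the constant sequence one -/
noncomputable def cf (u : ℕ → ℂ) (Y N n : ℕ) : ℂ :=
  ∑ x ∈ n.divisorsAntidiagonal.filter (fun x => x.1 ≤ Y ∧ x.2 ≤ N), u x.1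

lemma cf_small (u : ℕ → ℂ) (Y N n : ℕ) (h1 : n ≤ Y) (h2 : n ≤ N) :
    cf u Y N n = ∑ d ∈ n.divisors, u d := by
  unfold cf
  rw [Finset.filter_true_of_mem, Nat.sum_divisorsAntidiagonal (f := fun a _ => u a)]
  intro x hx
  rw [Nat.mem_divisorsAntidiagonal] at hx
  have hn := Nat.pos_of_ne_zero hx.2
  exact ⟨(Nat.le_of_dvd hn ⟨x.2, hx.1.symm⟩).trans h1,
    (Nat.le_of_dvd hn ⟨x.1, by rw [← hx.1]; ring⟩).trans h2⟩

lemma norm_cf_le (u : ℕ → ℂ) (Y N n : ℕ) :
    ‖cf u Y N n‖ ≤ ∑ d ∈ n.divisors, ‖u d‖ := by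
  unfold cf
  refine (norm_sum_le _ _).trans ?_
  rw [← Nat.sum_divisorsAntidiagonal (f := fun a _ => ‖u a‖)]
  exact Finset.sum_le_sum_of_subset_of_nonneg (Finset.filter_subset _ _) fun _ _ _ => norm_nonneg _

lemma conv {q : ℕ} (χ : DirichletCharacter ℂ q) (u : ℕ → ℂ) (Y N : ℕ) :
    (∑ d ∈ Ioc 0 Y, u d * χ d / d) * (∑ e ∈ Ioc 0 N, χ e / e) =
      ∑ n ∈ Ioc 0 (Y * N), cf u Y N n * χ n / n := by
  rw [Finset.sum_mul_sum, ← Finset.sum_product']
  rw [← Finset.sum_fiberwise_of_maps_to (s := Ioc 0 Y ×ˢ Ioc 0 N) (t := Ioc 0 (Y * N))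
    (g := fun x => x.1 * x.2)]
  · refine Finset.sum_congr rfl fun n hn => ?_
    rw [Finset.mem_Ioc] at hn
    unfold cf
    rw [Finset.sum_mul, Finset.sum_div]
    refine Finset.sum_congr ?_ fun x hx => ?_
    · ext x
      simp only [Finset.mem_filter, Finset.mem_product, Finset.mem_Ioc,
        Nat.mem_divisorsAntidiagonal]
      constructor
      · rintro ⟨⟨h1, h2⟩, h3⟩
        exact ⟨⟨h3, by omega⟩, h1.2, h2.2⟩
      · rintro ⟨⟨h1, h2⟩, h3, h4⟩
        refine ⟨⟨⟨Nat.pos_of_ne_zero ?_, h3⟩, ⟨Nat.pos_of_ne_zero ?_, h4⟩⟩, h1⟩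
        · intro h; rw [h] at h1; omega
        · intro h; rw [h] at h1; omega
    · rw [Finset.mem_filter, Nat.mem_divisorsAntidiagonal] at hx
      rw [← hx.1.1]
      push_cast
      rw [map_mul]
      ring
  · intro x hx
    simp only [Finset.mem_product, Finset.mem_Ioc] at hx ⊢
    exact ⟨Nat.mul_pos hx.1.1 hx.2.1, Nat.mul_le_mul hx.1.2 hx.2.2⟩

end Pool.Agent.MP_34d6af_nt

end MrgPart0

-- ======== part 1: formerly Pool.Agent.MP_34d6af_nt.Approx2
section MrgPart1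

set_option autoImplicit false

namespace Pool.Agent.MP_34d6af_nt

open Finset Complex Filter Topology
open scoped ComplexConjugate ArithmeticFunction.vonMangoldt ArithmeticFunction.Moebius

/-- truncated series for minus the logarithmic derivative at one -/
noncomputable def P {q : ℕ} (χ : DirichletCharacter ℂ q) (Y : ℕ) : ℂ :=
  ∑ d ∈ Ioc 0 Y, (Λ d : ℂ) * χ d / d

/-- logarithmic derivative at one -/
noncomputable def LD {q : ℕ} [NeZero q] (χ : DirichletCharacter ℂ q) : ℂ :=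
  deriv (DirichletCharacter.LFunction χ) 1 / DirichletCharacter.LFunction χ 1

lemma norm_sum_coef_le {q : ℕ} (χ : DirichletCharacter ℂ q) (s : Finset ℕ) (u : ℕ → ℂ) :
    ‖∑ d ∈ s, u d * χ d / d‖ ≤ ∑ d ∈ s, ‖u d‖ / d := by
  refine (norm_sum_le _ _).trans (Finset.sum_le_sum fun d _ => ?_)
  rw [norm_div, norm_mul, Complex.norm_natCast]
  refine div_le_div_of_nonneg_right ?_ (by positivity)
  exact mul_le_of_le_one_right (norm_nonneg _) (χ.norm_le_one _)

lemma norm_P_le {q : ℕ} (χ : DirichletCharacter ℂ q) (Y : ℕ) :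
    ‖P χ Y‖ ≤ ∑ d ∈ Ioc 0 Y, Λ d / d := by
  refine (norm_sum_coef_le χ _ _).trans (le_of_eq (Finset.sum_congr rfl fun d _ => ?_))
  rw [Complex.norm_real, Real.norm_of_nonneg ArithmeticFunction.vonMangoldt_nonneg]

lemma E_eq {q : ℕ} (χ : DirichletCharacter ℂ q) (Y N : ℕ) (hY : 1 ≤ Y) (hYN : Y ≤ N) :
    (∑ d ∈ Ioc 0 Y, (μ d : ℂ) * χ d / d) * (∑ e ∈ Ioc 0 N, χ e / e) - 1 =
      ∑ n ∈ Ioc Y (Y * N), cf (fun d => (μ d : ℂ)) Y N n * χ n / n := by
  rw [conv χ (fun d => (μ d : ℂ)) Y N,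
    ← Finset.sum_Ioc_consecutive _ (Nat.zero_le Y) (Nat.le_mul_of_pos_right Y (by omega))]
  have h1 : ∑ n ∈ Ioc 0 Y, cf (fun d => (μ d : ℂ)) Y N n * χ n / n = 1 := by
    rw [Finset.sum_eq_single 1]
    · rw [cf_small _ _ _ _ hY (by omega)]; simp
    · intro n hn hn1
      rw [Finset.mem_Ioc] at hn
      rw [cf_small _ _ _ _ hn.2 (by omega)]
      have h2 : ∑ d ∈ n.divisors, (μ d : ℂ) = 0 := by
        have h3 := congrArg (fun f : ArithmeticFunction ℤ => f n)
          ArithmeticFunction.moebius_mul_coe_zeta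
        simp only [ArithmeticFunction.coe_mul_zeta_apply, ArithmeticFunction.one_apply, hn1,
          if_false] at h3
        exact_mod_cast h3
      rw [h2]; simp
    · intro h; exact absurd (Finset.mem_Ioc.mpr ⟨by omega, hY⟩) h
  rw [h1]; ring

lemma D_eq {q : ℕ} (χ : DirichletCharacter ℂ q) (Y N : ℕ) (hY : 1 ≤ Y) (hYN : Y ≤ N) :
    P χ Y * (∑ e ∈ Ioc 0 N, χ e / e) - ∑ n ∈ Ioc 0 N, Real.log n * χ n / n =
      ∑ n ∈ Ioc Y (Y * N),
        (cf (fun d => (Λ d : ℂ)) Y N n - if n ≤ N then (Real.log n : ℂ) else 0) * χ n / n := by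
  unfold P
  rw [conv χ (fun d => (Λ d : ℂ)) Y N]
  have h1 : ∑ n ∈ Ioc 0 N, Real.log n * χ n / n =
      ∑ n ∈ Ioc 0 (Y * N), (if n ≤ N then (Real.log n : ℂ) else 0) * χ n / n := by
    have h2 : Ioc 0 N = (Ioc 0 (Y * N)).filter (fun n => n ≤ N) := by
      ext n
      have : N ≤ Y * N := Nat.le_mul_of_pos_left N (by omega)
      simp only [Finset.mem_filter, Finset.mem_Ioc]; omega
    rw [h2, Finset.sum_filter]
    refine Finset.sum_congr rfl fun n _ => ?_
    split_ifs <;> simp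
  rw [h1, ← Finset.sum_sub_distrib,
    ← Finset.sum_Ioc_consecutive _ (Nat.zero_le Y) (Nat.le_mul_of_pos_right Y (by omega))]
  have h3 : ∑ n ∈ Ioc 0 Y, (cf (fun d => (Λ d : ℂ)) Y N n * χ n / n -
      (if n ≤ N then (Real.log n : ℂ) else 0) * χ n / n) = 0 := by
    refine Finset.sum_eq_zero fun n hn => ?_
    rw [Finset.mem_Ioc] at hn
    rw [cf_small _ _ _ _ hn.2 (by omega), if_pos (by omega), ← Complex.ofReal_sum,
      ArithmeticFunction.vonMangoldt_sum, sub_self]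
  rw [h3, zero_add]
  refine Finset.sum_congr rfl fun n _ => by ring

lemma norm_cfD_le (Y N n : ℕ) :
    ‖cf (fun d => (Λ d : ℂ)) Y N n - if n ≤ N then (Real.log n : ℂ) else 0‖ ≤ 2 * Real.log n := by
  have h1 := norm_cf_le (fun d => (Λ d : ℂ)) Y N n
  have h2 : ∑ d ∈ n.divisors, ‖(Λ d : ℂ)‖ = Real.log n := by
    rw [← ArithmeticFunction.vonMangoldt_sum]
    refine Finset.sum_congr rfl fun d _ => ?_
    rw [Complex.norm_real, Real.norm_of_nonneg ArithmeticFunction.vonMangoldt_nonneg]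
  have h3 : ‖(if n ≤ N then (Real.log n : ℂ) else 0)‖ ≤ Real.log n := by
    split_ifs
    · rw [Complex.norm_real, Real.norm_of_nonneg (Real.log_natCast_nonneg n)]
    · simpa using Real.log_natCast_nonneg n
  refine (norm_sub_le _ _).trans ?_
  linarith

lemma norm_cfE_le (Y N n : ℕ) : ‖cf (fun d => (μ d : ℂ)) Y N n‖ ≤ n.divisors.card := by
  refine (norm_cf_le _ Y N n).trans ?_
  calc ∑ d ∈ n.divisors, ‖(μ d : ℂ)‖ ≤ ∑ _d ∈ n.divisors, (1 : ℝ) := by
        refine Finset.sum_le_sum fun d _ => ?_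
        rw [Complex.norm_intCast]
        exact_mod_cast ArithmeticFunction.abs_moebius_le_one
    _ = _ := by simp

open Classical in
/-- outside few characters the logarithmic derivative is the truncated series -/
theorem approx {q : ℕ} [NeZero q] (Y : ℕ) (hY : 1 ≤ Y) (hYq : Y ≤ q) (hq2 : 2 ≤ q) (l : ℝ)
    (hl : 7 + 3 * Real.log q ≤ l) (hq : 8 * l ^ 2 ≤ q) :
    ((univ.filter (fun χ : DirichletCharacter ℂ q => χ ≠ 1 ∧ 1 < ‖LD χ + P χ Y‖)).card : ℝ) ≤
      160 * (q / Y) * l ^ 6 := by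
  set N := q ^ 2 with hN
  have hqN : q ≤ N := by rw [hN]; nlinarith
  have hYN : Y ≤ N := hYq.trans hqN
  have hq' : (2 : ℝ) ≤ q := by exact_mod_cast hq2
  have hY' : (1 : ℝ) ≤ Y := by exact_mod_cast hY
  have hYq' : (Y : ℝ) ≤ q := by exact_mod_cast hYq
  have hlogq : 0 ≤ Real.log q := Real.log_natCast_nonneg q
  have hl1 : 1 ≤ l := by linarith
  have hl0 : 0 < l := by linarith
  have hlogY : Real.log Y ≤ Real.log q := Real.log_le_log (by linarith) hYq'
  have hZ : 1 + Real.log ((Y * N : ℕ) : ℝ) ≤ l := by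
    have : Real.log ((Y * N : ℕ) : ℝ) = Real.log Y + 2 * Real.log q := by
      rw [hN]; push_cast
      rw [Real.log_mul (by linarith) (by positivity), Real.log_pow]; norm_num
    linarith
  have hZ0 : 0 ≤ Real.log ((Y * N : ℕ) : ℝ) := Real.log_natCast_nonneg _
  have hqY : 1 ≤ (q : ℝ) / Y := by rw [le_div_iff₀ (by linarith)]; linarith
  have hfac : (q : ℝ) / Y + (1 + Real.log ((Y * N : ℕ) : ℝ)) ≤ 2 * (q / Y) * l := by
    nlinarith
  have hsub : Ioc Y (Y * N) ⊆ Ioc 0 (Y * N) := Finset.Ioc_subset_Ioc_left (Nat.zero_le _)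
  -- mean squares
  let E : DirichletCharacter ℂ q → ℂ := fun χ =>
    (∑ d ∈ Ioc 0 Y, (μ d : ℂ) * χ d / d) * (∑ e ∈ Ioc 0 N, χ e / e) - 1
  let D : DirichletCharacter ℂ q → ℂ := fun χ =>
    P χ Y * (∑ e ∈ Ioc 0 N, χ e / e) - ∑ n ∈ Ioc 0 N, Real.log n * χ n / n
  have hE : ∑ χ : DirichletCharacter ℂ q, ‖E χ‖ ^ 2 ≤ 2 * (q / Y) * l * l ^ 4 := by
    simp only [E]
    simp_rw [E_eq _ Y N hY hYN]
    refine (ms2 Y (Y * N) hY _).trans ?_
    refine mul_le_mul hfac ?_ (Finset.sum_nonneg fun n _ => by positivity) (by positivity)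
    calc _ ≤ ∑ n ∈ Ioc Y (Y * N), ((n.divisors.card : ℝ)) ^ 2 / n := by
          refine Finset.sum_le_sum fun n _ => ?_
          have := norm_cfE_le Y N n
          gcongr
      _ ≤ ∑ n ∈ Ioc 0 (Y * N), ((n.divisors.card : ℝ)) ^ 2 / n :=
          Finset.sum_le_sum_of_subset_of_nonneg hsub fun n _ _ => by positivity
      _ ≤ (1 + Real.log ((Y * N : ℕ) : ℝ)) ^ 4 := div_moment _
      _ ≤ l ^ 4 := by gcongr
  have hD : ∑ χ : DirichletCharacter ℂ q, ‖D χ‖ ^ 2 ≤ 2 * (q / Y) * l * (4 * l ^ 3) := by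
    simp only [D]
    simp_rw [D_eq _ Y N hY hYN]
    refine (ms2 Y (Y * N) hY _).trans ?_
    refine mul_le_mul hfac ?_ (Finset.sum_nonneg fun n _ => by positivity) (by positivity)
    calc _ ≤ ∑ n ∈ Ioc Y (Y * N), (2 * l) ^ 2 * (1 / (n : ℝ)) := by
          refine Finset.sum_le_sum fun n hn => ?_
          rw [Finset.mem_Ioc] at hn
          have h1 := norm_cfD_le Y N n
          have h2 : Real.log n ≤ Real.log ((Y * N : ℕ) : ℝ) :=
            Real.log_le_log (by exact_mod_cast (show 0 < n by omega)) (by exact_mod_cast hn.2)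
          rw [mul_one_div]
          have h3 := h1.trans (show 2 * Real.log n ≤ 2 * l by linarith)
          gcongr
      _ ≤ ∑ n ∈ Ioc 0 (Y * N), (2 * l) ^ 2 * (1 / (n : ℝ)) :=
          Finset.sum_le_sum_of_subset_of_nonneg hsub fun n _ _ => by positivity
      _ = (2 * l) ^ 2 * ∑ n ∈ Ioc 0 (Y * N), (1 / (n : ℝ)) := by rw [Finset.mul_sum]
      _ ≤ (2 * l) ^ 2 * l := by
          have := (harm_le (Y * N)).trans hZ
          gcongr
      _ = _ := by ring
  have hE' := card_gt_le univ (fun χ : DirichletCharacter ℂ q => ‖E χ‖ ^ 2)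
    (fun _ _ => by positivity) ((1 / 4) ^ 2) (by positivity) (fun χ => 1 / 4 < ‖E χ‖)
    (fun χ _ h => by gcongr)
  have hD' := card_gt_le univ (fun χ : DirichletCharacter ℂ q => ‖D χ‖ ^ 2)
    (fun _ _ => by positivity) ((1 / (4 * l)) ^ 2) (by positivity) (fun χ => 1 / (4 * l) < ‖D χ‖)
    (fun χ _ h => by gcongr)
  have hcover : univ.filter (fun χ : DirichletCharacter ℂ q => χ ≠ 1 ∧ 1 < ‖LD χ + P χ Y‖) ⊆
      univ.filter (fun χ : DirichletCharacter ℂ q => 1 / 4 < ‖E χ‖) ∪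
        univ.filter (fun χ : DirichletCharacter ℂ q => 1 / (4 * l) < ‖D χ‖) := by
    intro χ hχ
    simp only [Finset.mem_filter, Finset.mem_univ, true_and, Finset.mem_union] at hχ ⊢
    obtain ⟨hχ1, hχ2⟩ := hχ
    by_contra hcon
    push Not at hcon
    obtain ⟨h1, h2⟩ := hcon
    set L := DirichletCharacter.LFunction χ 1 with hL
    set L' := deriv (DirichletCharacter.LFunction χ) 1 with hL'
    set LN := ∑ e ∈ Ioc 0 N, χ e / e with hLN
    set M := ∑ d ∈ Ioc 0 Y, (μ d : ℂ) * χ d / d with hM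
    have hNq : (N : ℝ) = (q : ℝ) ^ 2 := by rw [hN]; push_cast; ring
    have t1 : ‖L - LN‖ ≤ 1 / q := by
      refine (L_tail hχ1 N).trans ?_
      rw [hNq, div_le_div_iff₀ (by positivity) (by positivity)]
      nlinarith
    have t2 : ‖L' + ∑ n ∈ Ioc 0 N, Real.log n * χ n / n‖ ≤ l / q := by
      refine (L'_tail hχ1 N (by omega)).trans ?_
      have h3 : Real.log ((N : ℝ) + 1) ≤ l := by
        have h4 : (N : ℝ) + 1 ≤ (q : ℝ) ^ 3 := by rw [hNq]; nlinarith
        have h5 := Real.log_le_log (by positivity) h4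
        rw [Real.log_pow] at h5
        push_cast at h5
        linarith
      calc (q : ℝ) * (Real.log ((N : ℝ) + 1) / (N + 1)) ≤ q * (l / (q : ℝ) ^ 2) := by
            rw [← hNq]
            gcongr
            linarith
        _ = l / q := by field_simp
    have t3 : ‖M‖ ≤ l := by
      refine (norm_sum_coef_le χ _ _).trans ?_
      calc ∑ d ∈ Ioc 0 Y, ‖(μ d : ℂ)‖ / d ≤ ∑ d ∈ Ioc 0 Y, (1 : ℝ) / d := by
            refine Finset.sum_le_sum fun d _ => ?_
            refine div_le_div_of_nonneg_right ?_ (by positivity)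
            rw [Complex.norm_intCast]
            exact_mod_cast ArithmeticFunction.abs_moebius_le_one
        _ ≤ 1 + Real.log Y := harm_le Y
        _ ≤ l := by linarith
    have t4 : ‖P χ Y‖ ≤ l := by
      refine (norm_P_le χ Y).trans ((mertens_le Y hY).trans ?_)
      linarith
    have t5 : l / q ≤ 1 / (8 * l) := by
      rw [div_le_div_iff₀ (by positivity) (by positivity)]
      nlinarith
    have t6 : 1 / (8 * l) ≤ 1 / 4 := one_div_le_one_div_of_le (by norm_num) (by linarith)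
    have t7 : 1 / 2 ≤ ‖M * L‖ := by
      have e1 : M * L = 1 + (E χ + M * (L - LN)) := by simp only [E]; ring
      have e2 : ‖M * (L - LN)‖ ≤ l / q := by
        rw [norm_mul]
        calc ‖M‖ * ‖L - LN‖ ≤ l * (1 / q) := by gcongr
          _ = l / q := by ring
      have e3 := norm_add_le (E χ) (M * (L - LN))
      have e4 := norm_sub_le (M * L) (E χ + M * (L - LN))
      have e5 : M * L - (E χ + M * (L - LN)) = 1 := by rw [e1]; ring
      rw [e5, norm_one] at e4
      linarith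
    have t8 : 1 / (2 * l) ≤ ‖L‖ := by
      rw [norm_mul] at t7
      rw [div_le_iff₀ (by positivity)]
      have := mul_le_mul_of_nonneg_right t3 (norm_nonneg L)
      linarith
    have hL0 : L ≠ 0 := by
      intro h
      rw [h, norm_zero] at t8
      have : 0 < 1 / (2 * l) := by positivity
      linarith
    have t9 : ‖L' + P χ Y * L‖ ≤ 1 / (2 * l) := by
      have e1 : L' + P χ Y * L = D χ + ((L' + ∑ n ∈ Ioc 0 N, Real.log n * χ n / n) +
          P χ Y * (L - LN)) := by simp only [D]; ring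
      have e2 : ‖P χ Y * (L - LN)‖ ≤ l / q := by
        rw [norm_mul]
        calc ‖P χ Y‖ * ‖L - LN‖ ≤ l * (1 / q) := by gcongr
          _ = l / q := by ring
      rw [e1]
      refine (norm_add_le _ _).trans ?_
      have e3 := norm_add_le (L' + ∑ n ∈ Ioc 0 N, Real.log n * χ n / n) (P χ Y * (L - LN))
      have e4 : 1 / (2 * l) = 1 / (4 * l) + (1 / (8 * l) + 1 / (8 * l)) := by
        field_simp; norm_num
      linarith
    have t10 : LD χ + P χ Y = (L' + P χ Y * L) / L := by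
      unfold LD
      rw [← hL, ← hL']
      field_simp
    rw [t10, norm_div, lt_div_iff₀ (norm_pos_iff.mpr hL0)] at hχ2
    linarith
  have hc := Finset.card_le_card hcover
  have hc2 := hc.trans (Finset.card_union_le _ _)
  have hc3 : ((univ.filter
      (fun χ : DirichletCharacter ℂ q => χ ≠ 1 ∧ 1 < ‖LD χ + P χ Y‖)).card : ℝ) ≤
      ((univ.filter (fun χ : DirichletCharacter ℂ q => 1 / 4 < ‖E χ‖)).card : ℝ) +
      ((univ.filter (fun χ : DirichletCharacter ℂ q => 1 / (4 * l) < ‖D χ‖)).card : ℝ) := by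
    exact_mod_cast hc2
  have b1 : (∑ χ : DirichletCharacter ℂ q, ‖E χ‖ ^ 2) / (1 / 4) ^ 2 ≤ 32 * (q / Y) * l ^ 6 := by
    rw [div_le_iff₀ (by positivity)]
    refine hE.trans ?_
    have h5 : l ^ 5 ≤ l ^ 6 := pow_le_pow_right₀ hl1 (by norm_num)
    calc 2 * ((q : ℝ) / Y) * l * l ^ 4 = 2 * (q / Y) * l ^ 5 := by ring
      _ ≤ 2 * (q / Y) * l ^ 6 := by gcongr
      _ = _ := by ring
  have b2 : (∑ χ : DirichletCharacter ℂ q, ‖D χ‖ ^ 2) / (1 / (4 * l)) ^ 2 ≤
      128 * (q / Y) * l ^ 6 := by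
    rw [div_le_iff₀ (by positivity)]
    refine hD.trans (le_of_eq ?_)
    field_simp
    ring
  linarith

end Pool.Agent.MP_34d6af_nt

end MrgPart1

-- ======== part 2: formerly Pool.Agent.MP_34d6af_nt.Reson
section MrgPart2

set_option autoImplicit false

namespace Pool.Agent.MP_34d6af_nt

open Finset Complex Filter Topology
open scoped ComplexConjugate ArithmeticFunction.vonMangoldt ArithmeticFunction.Omega

/-- primes up to `y` -/
def PR (y : ℕ) : Finset ℕ := (Ioc 0 y).filter Nat.Prime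

/-- the number whose divisors carry the resonator -/
def DD (y : ℕ) : ℕ := ∏ p ∈ PR y, p ^ (y / p)

lemma mem_PR {y p : ℕ} : p ∈ PR y ↔ p.Prime ∧ p ≤ y := by
  unfold PR
  simp only [Finset.mem_filter, Finset.mem_Ioc]
  exact ⟨fun h => ⟨h.2, h.1.2⟩, fun h => ⟨⟨h.1.pos, h.2⟩, h.1⟩⟩

lemma DD_ne (y : ℕ) : DD y ≠ 0 :=
  Finset.prod_ne_zero_iff.mpr fun _ hp => pow_ne_zero _ (mem_PR.mp hp).1.ne_zero

lemma prime_dvd_DD {y p : ℕ} (hp : p.Prime) (h : p ∣ DD y) : p ≤ y := by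
  obtain ⟨r, hr, h1⟩ := (Prime.dvd_finsetProd_iff hp.prime _).mp h
  have h2 := (mem_PR.mp hr)
  have := (Nat.prime_dvd_prime_iff_eq hp h2.1).mp (hp.dvd_of_dvd_pow h1)
  omega

lemma count_ge {y p : ℕ} (hp : p ∈ PR y) :
    ((DD y).divisors.card : ℝ) * (1 - (p : ℝ) / y) ≤
      (((DD y).divisors.filter (fun m => p * m ∣ DD y)).card : ℝ) := by
  obtain ⟨hpp, hpy⟩ := mem_PR.mp hp
  set a := y / p with ha
  have ha1 : 1 ≤ a := (Nat.one_le_div_iff hpp.pos).mpr hpy
  set D' := ∏ r ∈ (PR y).erase p, r ^ (y / r) with hD'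
  have hD : DD y = p ^ a * D' := (Finset.mul_prod_erase _ (fun r => r ^ (y / r)) hp).symm
  have hcop : Nat.Coprime p D' := by
    refine Nat.Coprime.prod_right fun r hr => Nat.Coprime.pow_right _ ?_
    rw [Finset.mem_erase] at hr
    exact (Nat.coprime_primes hpp (mem_PR.mp hr.2).1).mpr (Ne.symm hr.1)
  have hD'0 : D' ≠ 0 := by
    intro h; apply DD_ne y; rw [hD, h, mul_zero]
  have hc : ∀ b : ℕ, (p ^ b * D').divisors.card = (b + 1) * D'.divisors.card := by
    intro b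
    rw [Nat.Coprime.card_divisors_mul (hcop.pow_left b), Nat.divisors_prime_pow hpp]
    simp
  have h1 : (DD y).divisors.filter (fun m => p * m ∣ DD y) = (p ^ (a - 1) * D').divisors := by
    have e : DD y = p * (p ^ (a - 1) * D') := by
      rw [hD, ← mul_assoc, ← pow_succ', Nat.sub_add_cancel ha1]
    ext m
    simp only [Finset.mem_filter, Nat.mem_divisors]
    constructor
    · rintro ⟨-, h⟩
      rw [e] at h
      exact ⟨Nat.dvd_of_mul_dvd_mul_left hpp.pos h, mul_ne_zero (pow_ne_zero _ hpp.ne_zero) hD'0⟩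
    · rintro ⟨h, -⟩
      refine ⟨⟨?_, DD_ne y⟩, ?_⟩
      · rw [e]; exact h.mul_left _
      · rw [e]; exact Nat.mul_dvd_mul_left _ h
  rw [h1, hc, hD, hc, Nat.sub_add_cancel ha1]
  push_cast
  have hy : (0 : ℝ) < y := by exact_mod_cast (hpp.pos.trans_le hpy)
  have h2 : (y : ℝ) ≤ p * (a + 1) := by
    have := Nat.lt_div_mul_add (a := y) hpp.pos
    have h3 : (y : ℝ) < a * p + p := by exact_mod_cast this
    linarith
  have h3 : ((a : ℝ) + 1) * (1 - (p : ℝ) / y) ≤ a := by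
    have : 1 ≤ (a + 1) * ((p : ℝ) / y) := by
      rw [← mul_div_assoc, le_div_iff₀ hy]; linarith
    linarith
  have h4 : (0 : ℝ) ≤ D'.divisors.card := by positivity
  nlinarith

lemma card_div_prod_le (s : Finset ℕ) (g : ℕ → ℕ) :
    (∏ p ∈ s, g p).divisors.card ≤ ∏ p ∈ s, (g p).divisors.card := by
  classical
  induction s using Finset.induction_on with
  | empty => simp
  | insert a s ha ih =>
    rw [Finset.prod_insert ha, Finset.prod_insert ha, Nat.divisors_mul]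
    exact Finset.card_mul_le.trans (Nat.mul_le_mul_left _ ih)

lemma W_le (y : ℕ) : (DD y).divisors.card ≤ ∏ p ∈ PR y, (y / p + 1) := by
  refine (card_div_prod_le _ _).trans (le_of_eq (Finset.prod_congr rfl fun p hp => ?_))
  rw [Nat.divisors_prime_pow (mem_PR.mp hp).1]; simp

lemma DD_le (y : ℕ) : DD y ≤ 2 ^ (y * y) := by
  unfold DD
  calc ∏ p ∈ PR y, p ^ (y / p) ≤ ∏ _p ∈ PR y, 2 ^ y := by
        refine Finset.prod_le_prod' fun p hp => ?_
        calc p ^ (y / p) ≤ (2 ^ p) ^ (y / p) := Nat.pow_le_pow_left Nat.lt_two_pow_self.le _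
          _ = 2 ^ (p * (y / p)) := by rw [pow_mul]
          _ ≤ 2 ^ y := Nat.pow_le_pow_right (by norm_num) (Nat.mul_div_le y p)
    _ = 2 ^ (y * (PR y).card) := by rw [Finset.prod_const, ← pow_mul]
    _ ≤ 2 ^ (y * y) := by
        refine Nat.pow_le_pow_right (by norm_num) (Nat.mul_le_mul_left _ ?_)
        exact (Finset.card_filter_le _ _).trans (by simp)

lemma sum_log_div_sqrt (y : ℕ) :
    ∑ p ∈ PR y, Real.log p / Real.sqrt p ≤ 8 * Real.sqrt y := by
  induction y using Nat.strong_induction_on with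
  | _ y ih =>
    rcases Nat.eq_zero_or_pos y with rfl | hy
    · simp [PR]
    have hy' : (0 : ℝ) < y := by exact_mod_cast hy
    have hsub : PR (y / 2) ⊆ PR y := fun p hp => by
      rw [mem_PR] at hp ⊢; exact ⟨hp.1, by omega⟩
    rw [← Finset.sum_sdiff hsub]
    have h1 := ih (y / 2) (by omega)
    have hs : 0 < Real.sqrt y := Real.sqrt_pos.mpr hy'
    have hss : Real.sqrt y * Real.sqrt y = y := Real.mul_self_sqrt hy'.le
    have h2 : Real.sqrt ((y / 2 : ℕ) : ℝ) ≤ 0.71 * Real.sqrt y := by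
      rw [Real.sqrt_le_left (by positivity)]
      have : ((y / 2 : ℕ) : ℝ) ≤ (y : ℝ) / 2 := Nat.cast_div_le
      nlinarith
    have h3 : ∑ p ∈ PR y \ PR (y / 2), Real.log p / Real.sqrt p ≤
        ∑ p ∈ PR y, Real.log p / (0.7 * Real.sqrt y) := by
      calc _ ≤ ∑ p ∈ PR y \ PR (y / 2), Real.log p / (0.7 * Real.sqrt y) := by
            refine Finset.sum_le_sum fun p hp => ?_
            rw [Finset.mem_sdiff, mem_PR, mem_PR] at hp
            have h4 : y < 2 * p := by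
              by_contra h
              exact hp.2 ⟨hp.1.1, by omega⟩
            have h5 : (y : ℝ) < 2 * p := by exact_mod_cast h4
            refine div_le_div_of_nonneg_left (Real.log_natCast_nonneg p) (by positivity) ?_
            rw [Real.le_sqrt (by positivity) (by positivity)]
            nlinarith
        _ ≤ _ := Finset.sum_le_sum_of_subset_of_nonneg Finset.sdiff_subset fun p _ _ => by
            have := Real.log_natCast_nonneg p
            positivity
    rw [← Finset.sum_div] at h3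
    have h4 := theta_le y
    have h5 : (∑ p ∈ PR y, Real.log p) / (0.7 * Real.sqrt y) ≤ 2.2 * Real.sqrt y := by
      rw [div_le_iff₀ (by positivity)]
      unfold PR
      nlinarith
    nlinarith

lemma sum_inv_sqrt (z : ℕ) : ∑ n ∈ Ioc 0 z, 1 / Real.sqrt n ≤ 2 * Real.sqrt z := by
  induction z with
  | zero => simp
  | succ z ih =>
    rw [Finset.sum_Ioc_succ_top (Nat.zero_le _)]
    have h1 : 0 < Real.sqrt ((z + 1 : ℕ) : ℝ) := Real.sqrt_pos.mpr (by positivity)
    have h2 : 1 / Real.sqrt ((z + 1 : ℕ) : ℝ) ≤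
        2 * Real.sqrt ((z + 1 : ℕ) : ℝ) - 2 * Real.sqrt z := by
      rw [div_le_iff₀ h1]
      have h3 := Real.mul_self_sqrt (show (0 : ℝ) ≤ ((z + 1 : ℕ) : ℝ) by positivity)
      have h4 := Real.mul_self_sqrt (show (0 : ℝ) ≤ (z : ℝ) by positivity)
      have h5 : ((z + 1 : ℕ) : ℝ) = z + 1 := by push_cast; ring
      nlinarith [sq_nonneg (Real.sqrt ((z + 1 : ℕ) : ℝ) - Real.sqrt z)]
    linarith

lemma log_W_le (y : ℕ) (hy : 2 ≤ y) :
    Real.log ((DD y).divisors.card : ℝ) ≤ 48 * y / Real.log y := by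
  have hy' : (2 : ℝ) ≤ y := by exact_mod_cast hy
  have hly : 0 < Real.log y := Real.log_pos (by linarith)
  have hW0 : (0 : ℝ) < (DD y).divisors.card := by
    have : 0 < (DD y).divisors.card :=
      Finset.card_pos.mpr ⟨1, Nat.one_mem_divisors.mpr (DD_ne y)⟩
    exact_mod_cast this
  have h1 : Real.log ((DD y).divisors.card : ℝ) ≤ ∑ p ∈ PR y, Real.log ((y / p + 1 : ℕ) : ℝ) := by
    rw [← Real.log_prod (fun p _ => by positivity)]
    refine Real.log_le_log hW0 ?_
    exact_mod_cast W_le y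
  have h2 : ∑ p ∈ PR y, Real.log ((y / p + 1 : ℕ) : ℝ) ≤
      ∑ p ∈ PR y, 2 * Real.sqrt y * (1 / Real.sqrt p) := by
    refine Finset.sum_le_sum fun p hp => ?_
    have hp0 : (0 : ℝ) < p := by exact_mod_cast (mem_PR.mp hp).1.pos
    set t := Real.sqrt y / Real.sqrt p with ht
    have ht0 : 0 ≤ t := by positivity
    have ht2 : t ^ 2 = y / p := by
      rw [ht, div_pow, Real.sq_sqrt (by positivity), Real.sq_sqrt hp0.le]
    have h3 : ((y / p + 1 : ℕ) : ℝ) ≤ (1 + t) ^ 2 := by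
      have : ((y / p : ℕ) : ℝ) ≤ (y : ℝ) / p := Nat.cast_div_le
      push_cast
      nlinarith
    have h4 := Real.log_le_log (by positivity) h3
    rw [Real.log_pow] at h4
    have h5 := Real.log_le_sub_one_of_pos (x := 1 + t) (by positivity)
    have h6 : 2 * Real.sqrt y * (1 / Real.sqrt p) = 2 * t := by rw [ht]; ring
    push_cast at h4 ⊢
    linarith
  rw [← Finset.mul_sum] at h2
  have h3 : ∑ p ∈ PR y, 1 / Real.sqrt p ≤
      ∑ n ∈ Ioc 0 (Nat.sqrt y), 1 / Real.sqrt n +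
        ∑ p ∈ PR y, 2 / Real.log y * (Real.log p / Real.sqrt p) := by
    rw [← Finset.sum_filter_add_sum_filter_not (PR y) (fun p => p ≤ Nat.sqrt y)]
    refine add_le_add ?_ ?_
    · refine Finset.sum_le_sum_of_subset_of_nonneg ?_ fun _ _ _ => by positivity
      intro p hp
      rw [Finset.mem_filter, mem_PR] at hp
      exact Finset.mem_Ioc.mpr ⟨hp.1.1.pos, hp.2⟩
    · calc _ ≤ ∑ p ∈ (PR y).filter (fun p => ¬ p ≤ Nat.sqrt y),
            2 / Real.log y * (Real.log p / Real.sqrt p) := by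
            refine Finset.sum_le_sum fun p hp => ?_
            rw [Finset.mem_filter, mem_PR] at hp
            have h4 : y < p * p := Nat.sqrt_lt.mp (by omega)
            have h5 : (y : ℝ) ≤ (p : ℝ) ^ 2 := by
              have : (y : ℝ) < p * p := by exact_mod_cast h4
              nlinarith
            have h6 := Real.log_le_log (by linarith) h5
            rw [Real.log_pow] at h6
            have hp0 : (0 : ℝ) < p := by exact_mod_cast hp.1.1.pos
            have h7 : 1 ≤ 2 / Real.log y * Real.log p := by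
              rw [div_mul_eq_mul_div, le_div_iff₀ hly]
              push_cast at h6; linarith
            rw [← mul_div_assoc]
            exact div_le_div_of_nonneg_right h7 (by positivity)
        _ ≤ _ := Finset.sum_le_sum_of_subset_of_nonneg (Finset.filter_subset _ _) fun p _ _ => by
            have := Real.log_natCast_nonneg p
            positivity
  rw [← Finset.mul_sum] at h3
  have h4 := sum_inv_sqrt (Nat.sqrt y)
  have h5 := sum_log_div_sqrt y
  have hs : 0 < Real.sqrt y := Real.sqrt_pos.mpr (by linarith)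
  have hss : Real.sqrt y * Real.sqrt y = y := Real.mul_self_sqrt (by linarith)
  set u := Real.sqrt (Real.sqrt y) with hu
  have hu0 : 0 < u := Real.sqrt_pos.mpr hs
  have huu : u * u = Real.sqrt y := Real.mul_self_sqrt hs.le
  have h6 : Real.sqrt ((Nat.sqrt y : ℕ) : ℝ) ≤ u := Real.sqrt_le_sqrt (Real.nat_sqrt_le_real_sqrt)
  have h7 : Real.log y ≤ 4 * u := by
    have e : (y : ℝ) = u ^ 4 := by
      rw [← hss, ← huu]; ring
    have h8 := Real.log_le_sub_one_of_pos hu0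
    rw [e, Real.log_pow]; push_cast; linarith
  have h8 : u ≤ 4 * Real.sqrt y / Real.log y := by
    rw [le_div_iff₀ hly]; nlinarith
  have h9 : ∑ p ∈ PR y, 1 / Real.sqrt p ≤ 24 * Real.sqrt y / Real.log y := by
    have h10 : 2 / Real.log y * ∑ p ∈ PR y, Real.log p / Real.sqrt p ≤
        2 / Real.log y * (8 * Real.sqrt y) := mul_le_mul_of_nonneg_left h5 (by positivity)
    have e1 : 2 / Real.log y * (8 * Real.sqrt y) = 16 * Real.sqrt y / Real.log y := by ring
    have e2 : 24 * Real.sqrt y / Real.log y = 2 * (4 * Real.sqrt y / Real.log y) +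
      16 * Real.sqrt y / Real.log y := by ring
    linarith
  calc _ ≤ 2 * Real.sqrt y * ∑ p ∈ PR y, 1 / Real.sqrt p := h1.trans h2
    _ ≤ 2 * Real.sqrt y * (24 * Real.sqrt y / Real.log y) :=
        mul_le_mul_of_nonneg_left h9 (by positivity)
    _ = 48 * (Real.sqrt y * Real.sqrt y) / Real.log y := by ring
    _ = _ := by rw [hss]

end Pool.Agent.MP_34d6af_nt

end MrgPart2

-- ======== part 3: formerly Pool.Agent.MP_34d6af_nt.Moment
section MrgPart3

set_option autoImplicit false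

namespace Pool.Agent.MP_34d6af_nt

open Finset Complex Filter Topology
open scoped ComplexConjugate ArithmeticFunction.vonMangoldt

lemma diag_le (I : Finset ℕ) (hI : ∀ p ∈ I, p.Prime) (w : ℕ → ℝ) (hw0 : ∀ p ∈ I, 0 ≤ w p)
    (m : ℝ) (hm0 : 0 ≤ m) (hm : ∀ p ∈ I, w p ≤ m) (k : ℕ) (a : Fin k → ℕ)
    (ha : a ∈ Fintype.piFinset (fun _ : Fin k => I)) :
    ∑ b ∈ (Fintype.piFinset (fun _ : Fin k => I)).filter (fun b => ∏ i, a i = ∏ i, b i),
      ∏ i, w (b i) ≤ (k * m) ^ k := by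
  classical
  have h1 : (Fintype.piFinset (fun _ : Fin k => I)).filter (fun b => ∏ i, a i = ∏ i, b i) ⊆
      Fintype.piFinset (fun _ : Fin k => univ.image a) := by
    intro b hb
    rw [Finset.mem_filter, Fintype.mem_piFinset] at hb
    rw [Fintype.mem_piFinset] at ha ⊢
    intro i
    have hp := hI _ (hb.1 i)
    have h2 : b i ∣ ∏ j, a j := by rw [hb.2]; exact Finset.dvd_prod_of_mem _ (Finset.mem_univ i)
    obtain ⟨j, -, hj⟩ := (Prime.dvd_finsetProd_iff hp.prime _).mp h2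
    rw [Finset.mem_image]
    exact ⟨j, Finset.mem_univ _, ((Nat.prime_dvd_prime_iff_eq hp (hI _ (ha j))).mp hj).symm⟩
  have h2 : ((Fintype.piFinset (fun _ : Fin k => I)).filter
      (fun b => ∏ i, a i = ∏ i, b i)).card ≤ k ^ k := by
    refine (Finset.card_le_card h1).trans ?_
    rw [Fintype.card_piFinset, Finset.prod_const, Finset.card_univ, Fintype.card_fin]
    refine Nat.pow_le_pow_left (Finset.card_image_le.trans ?_) _
    simp
  calc _ ≤ ∑ b ∈ (Fintype.piFinset (fun _ : Fin k => I)).filter (fun b => ∏ i, a i = ∏ i, b i),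
        m ^ k := by
        refine Finset.sum_le_sum fun b hb => ?_
        rw [Finset.mem_filter, Fintype.mem_piFinset] at hb
        calc ∏ i, w (b i) ≤ ∏ _i : Fin k, m :=
              Finset.prod_le_prod (fun i _ => hw0 _ (hb.1 i)) (fun i _ => hm _ (hb.1 i))
          _ = m ^ k := by simp
    _ ≤ (k : ℝ) ^ k * m ^ k := by
        rw [Finset.sum_const, nsmul_eq_mul]
        refine mul_le_mul_of_nonneg_right ?_ (by positivity)
        exact_mod_cast h2
    _ = _ := by rw [mul_pow]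

lemma block_moment (T : Finset ℕ) (hT : ∀ q ∈ T, q.Prime) (B : ℕ) (hB : ∀ q ∈ T, q ≤ B)
    (I : Finset ℕ) (hI : ∀ p ∈ I, p.Prime) (z : ℕ) (hz : ∀ p ∈ I, p ≤ z)
    (w : ℕ → ℝ) (hw0 : ∀ p ∈ I, 0 ≤ w p) (m : ℝ) (hm0 : 0 ≤ m) (hm : ∀ p ∈ I, w p ≤ m)
    (s : ℝ) (hs : ∑ p ∈ I, w p ≤ s) (k : ℕ) :
    ∑ q ∈ T, ∑ χ : DirichletCharacter ℂ q, ‖∑ p ∈ I, (w p : ℂ) * χ p‖ ^ (2 * k) ≤
      B * (T.card * (s * (k * m)) ^ k + s ^ (2 * k) * Nat.log 2 (z ^ k)) := by
  classical
  set A := Fintype.piFinset (fun _ : Fin k => I) with hA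
  let g : (Fin k → ℕ) → ℕ := fun a => ∏ i, a i
  let W : (Fin k → ℕ) → ℝ := fun a => ∏ i, w (a i)
  have hW0 : ∀ a ∈ A, 0 ≤ W a := fun a ha =>
    Finset.prod_nonneg fun i _ => hw0 _ (Fintype.mem_piFinset.mp ha i)
  have hs0 : 0 ≤ ∑ p ∈ I, w p := Finset.sum_nonneg hw0
  have hWs : ∑ a ∈ A, W a ≤ s ^ k := by
    have := Finset.prod_univ_sum (fun _ : Fin k => I) (fun _ p => w p)
    rw [← this, Finset.prod_const, Finset.card_univ, Fintype.card_fin]
    exact pow_le_pow_left₀ hs0 hs k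
  have hgz : ∀ a ∈ A, g a ≤ z ^ k := fun a ha => by
    calc g a ≤ ∏ _i : Fin k, z :=
          Finset.prod_le_prod' fun i _ => hz _ (Fintype.mem_piFinset.mp ha i)
      _ = z ^ k := by simp
  have h1 : ∀ q ∈ T, ∑ χ : DirichletCharacter ℂ q, ‖∑ p ∈ I, (w p : ℂ) * χ p‖ ^ (2 * k) ≤
      B * ∑ a ∈ A, ∑ b ∈ A, if (g a : ZMod q) = g b then W a * W b else 0 := by
    intro q hq
    have : NeZero q := ⟨(hT q hq).ne_zero⟩
    have h2 := ms (q := q) A g (fun a => (W a : ℂ))
    have h3 : ∀ χ : DirichletCharacter ℂ q, ‖∑ p ∈ I, (w p : ℂ) * χ p‖ ^ (2 * k) =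
        ‖∑ a ∈ A, (W a : ℂ) * χ (g a)‖ ^ 2 := by
      intro χ
      rw [mul_comm 2 k, pow_mul, ← norm_pow]
      congr 2
      have := Finset.prod_univ_sum (fun _ : Fin k => I) (fun _ p => (w p : ℂ) * χ p)
      rw [Finset.prod_const, Finset.card_univ, Fintype.card_fin] at this
      rw [this]
      refine Finset.sum_congr rfl fun a _ => ?_
      simp only [W, g]
      push_cast
      rw [map_prod, Finset.prod_mul_distrib]
    simp_rw [h3]
    refine h2.trans ?_
    have h4 : ∑ a ∈ A, ∑ b ∈ A, (if (g a : ZMod q) = g b then ‖(W a : ℂ)‖ * ‖(W b : ℂ)‖ else 0) =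
        ∑ a ∈ A, ∑ b ∈ A, if (g a : ZMod q) = g b then W a * W b else 0 := by
      refine Finset.sum_congr rfl fun a ha => Finset.sum_congr rfl fun b hb => ?_
      rw [Complex.norm_real, Complex.norm_real, Real.norm_of_nonneg (hW0 a ha),
        Real.norm_of_nonneg (hW0 b hb)]
    rw [h4]
    refine mul_le_mul_of_nonneg_right (by exact_mod_cast hB q hq) ?_
    refine Finset.sum_nonneg fun a ha => Finset.sum_nonneg fun b hb => ?_
    have := hW0 a ha
    have := hW0 b hb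
    split_ifs <;> positivity
  refine (Finset.sum_le_sum h1).trans ?_
  rw [← Finset.mul_sum]
  refine mul_le_mul_of_nonneg_left ?_ (by positivity)
  have h2 : ∑ q ∈ T, ∑ a ∈ A, ∑ b ∈ A, (if (g a : ZMod q) = g b then W a * W b else 0) ≤
      ∑ a ∈ A, ∑ b ∈ A, ((if g a = g b then W a * W b else 0) * T.card +
        W a * W b * Nat.log 2 (z ^ k)) := by
    rw [Finset.sum_comm]
    refine Finset.sum_le_sum fun a ha => ?_
    rw [Finset.sum_comm]
    refine Finset.sum_le_sum fun b hb => ?_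
    have h3 : 0 ≤ W a * W b := mul_nonneg (hW0 a ha) (hW0 b hb)
    rw [← Finset.sum_filter, Finset.sum_const, nsmul_eq_mul]
    split_ifs with h
    · have h4 : ((T.filter (fun q => (g a : ZMod q) = g b)).card : ℝ) ≤ T.card := by
        exact_mod_cast Finset.card_filter_le _ _
      have h5 : 0 ≤ W a * W b * Nat.log 2 (z ^ k) := by positivity
      nlinarith
    · have h4 : ((T.filter (fun q => (g a : ZMod q) = g b)).card : ℝ) ≤ Nat.log 2 (z ^ k) := by
        exact_mod_cast card_cong_le T hT _ _ _ h (hgz a ha) (hgz b hb)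
      nlinarith
  refine h2.trans ?_
  simp_rw [Finset.sum_add_distrib, ← Finset.sum_mul]
  refine add_le_add ?_ ?_
  · rw [mul_comm]
    refine mul_le_mul_of_nonneg_left ?_ (by positivity)
    calc ∑ a ∈ A, ∑ b ∈ A, (if g a = g b then W a * W b else 0) ≤
          ∑ a ∈ A, W a * (k * m) ^ k := by
          refine Finset.sum_le_sum fun a ha => ?_
          rw [← Finset.sum_filter, ← Finset.mul_sum]
          exact mul_le_mul_of_nonneg_left (diag_le I hI w hw0 m hm0 hm k a ha) (hW0 a ha)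
      _ ≤ s ^ k * (k * m) ^ k := by
          rw [← Finset.sum_mul]
          exact mul_le_mul_of_nonneg_right hWs (by positivity)
      _ = _ := by rw [← mul_pow]
  · refine mul_le_mul_of_nonneg_right ?_ (by positivity)
    rw [← Finset.sum_mul_sum, two_mul, pow_add]
    have h3 : 0 ≤ ∑ a ∈ A, W a := Finset.sum_nonneg hW0
    exact mul_le_mul hWs hWs h3 (h3.trans hWs)

open Classical in
lemma block_count (T : Finset ℕ) (hT : ∀ q ∈ T, q.Prime) (B : ℕ) (hB : ∀ q ∈ T, q ≤ B)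
    (I : Finset ℕ) (hI : ∀ p ∈ I, p.Prime) (z : ℕ) (hz : ∀ p ∈ I, p ≤ z)
    (w : ℕ → ℝ) (hw0 : ∀ p ∈ I, 0 ≤ w p) (m : ℝ) (hm0 : 0 ≤ m) (hm : ∀ p ∈ I, w p ≤ m)
    (s : ℝ) (hs : ∑ p ∈ I, w p ≤ s) (k : ℕ) (η : ℝ) (hη : 0 < η) :
    ∑ q ∈ T, ((univ.filter (fun χ : DirichletCharacter ℂ q =>
        η < ‖∑ p ∈ I, (w p : ℂ) * χ p‖)).card : ℝ) ≤
      B * (T.card * (s * (k * m) / η ^ 2) ^ k + (s / η) ^ (2 * k) * Nat.log 2 (z ^ k)) := by
  have h1 := block_moment T hT B hB I hI z hz w hw0 m hm0 hm s hs k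
  have h2 : ∀ q ∈ T, ((univ.filter (fun χ : DirichletCharacter ℂ q =>
        η < ‖∑ p ∈ I, (w p : ℂ) * χ p‖)).card : ℝ) ≤
      (∑ χ : DirichletCharacter ℂ q, ‖∑ p ∈ I, (w p : ℂ) * χ p‖ ^ (2 * k)) / η ^ (2 * k) :=
    fun q _ => card_gt_le univ _ (fun _ _ => by positivity) _ (by positivity) _
      (fun χ _ h => by gcongr)
  refine (Finset.sum_le_sum h2).trans ?_
  rw [← Finset.sum_div]
  refine (div_le_div_of_nonneg_right h1 (by positivity)).trans (le_of_eq ?_)
  rw [div_pow, div_pow, ← pow_mul]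
  field_simp

end Pool.Agent.MP_34d6af_nt

end MrgPart3

-- ======== part 4: formerly Pool.Agent.MP_34d6af_nt.Upper
section MrgPart4

set_option autoImplicit false

namespace Pool.Agent.MP_34d6af_nt

open Finset Complex Filter Topology
open scoped ComplexConjugate ArithmeticFunction.vonMangoldt

/-- dyadic block of primes -/
def Blk (Q y j : ℕ) : Finset ℕ := (Ioc (2 ^ j * y) (2 ^ (j + 1) * y)).filter
  (fun p => p.Prime ∧ p ≤ Q)

open Classical in
lemma block_j (Q y j : ℕ) (T : Finset ℕ) (hT : ∀ q ∈ T, q.Prime) (hB : ∀ q ∈ T, q ≤ 2 * Q)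
    (hTc : T.card ≤ 2 * Q) (hQ : 1 ≤ Q) (hy : 2 ≤ y) (hj : j ≤ Nat.log 2 Q)
    (hyL : (2 * (Nat.log 2 Q : ℝ) + 1) * Real.log y ≤ 8 * y) (r : ℝ) (hr : 1 ≤ r) :
    ∑ q ∈ T, ((univ.filter (fun χ : DirichletCharacter ℂ q =>
        10 / r ^ j < ‖∑ p ∈ Blk Q y j, ((Real.log p / p : ℝ) : ℂ) * χ p‖)).card : ℝ) ≤
      2 * Q * r ^ (4 * Nat.log 2 Q + 2) * ((y + 4) * (Nat.log 2 Q + 1)) := by
  set t := Nat.log 2 Q with ht
  set k := t / (j + 1) + 1 with hk
  have hk1 : t + 1 ≤ (j + 1) * k := by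
    have := Nat.lt_div_mul_add (a := t) (show 0 < j + 1 by omega)
    rw [hk]; nlinarith
  have hk2 : (j + 1) * k ≤ 2 * t + 1 := by
    have := Nat.mul_div_le t (j + 1)
    rw [hk]; nlinarith
  have hk3 : k ≤ t + 1 := by
    have := Nat.div_le_self t (j + 1)
    omega
  have hy' : (2 : ℝ) ≤ y := by exact_mod_cast hy
  have hQ' : (1 : ℝ) ≤ Q := by exact_mod_cast hQ
  have hly : Real.log 2 ≤ Real.log y := Real.log_le_log (by norm_num) hy'
  have hl2 : 0 < Real.log 2 := Real.log_pos (by norm_num)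
  have hmem : ∀ p ∈ Blk Q y j, p.Prime ∧ 2 ^ j * y < p ∧ p ≤ 2 ^ (j + 1) * y := by
    intro p hp
    simp only [Blk, Finset.mem_filter, Finset.mem_Ioc] at hp
    exact ⟨hp.2.1, hp.1.1, hp.1.2⟩
  set m : ℝ := 2 * (j + 1) * Real.log y / (2 ^ j * y) with hm
  have hm0 : 0 ≤ m := by
    have : 0 ≤ Real.log y := by linarith
    positivity
  have hxy : (0 : ℝ) < 2 ^ j * y := by positivity
  have h := block_count T hT (2 * Q) hB (Blk Q y j) (fun p hp => (hmem p hp).1) (2 ^ (j + 1) * y)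
    (fun p hp => (hmem p hp).2.2) (fun p => Real.log p / p)
    (fun p _ => div_nonneg (Real.log_natCast_nonneg p) (by positivity)) m hm0
    (fun p hp => by
      obtain ⟨h1, h2, h3⟩ := hmem p hp
      have h2' : (2 : ℝ) ^ j * y ≤ p := by exact_mod_cast h2.le
      have h3' : (p : ℝ) ≤ 2 ^ (j + 1) * y := by exact_mod_cast h3
      have h4 := Real.log_le_log (by linarith) h3'
      rw [Real.log_mul (by positivity) (by positivity), Real.log_pow] at h4
      push_cast at h4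
      have h5 : Real.log p ≤ 2 * (j + 1) * Real.log y := by
        have : (0 : ℝ) ≤ j := by positivity
        nlinarith
      exact div_le_div₀ ((Real.log_natCast_nonneg p).trans h5) h5 hxy h2')
    3 (by
      calc ∑ p ∈ Blk Q y j, Real.log p / p ≤ ∑ p ∈ Blk Q y j, Real.log p / (2 ^ j * y) := by
            refine Finset.sum_le_sum fun p hp => ?_
            have h2' : (2 : ℝ) ^ j * y ≤ p := by exact_mod_cast (hmem p hp).2.1.le
            exact div_le_div_of_nonneg_left (Real.log_natCast_nonneg p) hxy h2'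
        _ ≤ ∑ p ∈ (Ioc 0 (2 ^ (j + 1) * y)).filter Nat.Prime, Real.log p / (2 ^ j * y) := by
            refine Finset.sum_le_sum_of_subset_of_nonneg ?_ fun p _ _ =>
              div_nonneg (Real.log_natCast_nonneg p) hxy.le
            intro p hp
            obtain ⟨h1, h2, h3⟩ := hmem p hp
            simp only [Finset.mem_filter, Finset.mem_Ioc]
            exact ⟨⟨h1.pos, h3⟩, h1⟩
        _ ≤ 3 := by
            rw [← Finset.sum_div, div_le_iff₀ hxy]
            refine (theta_le _).trans (le_of_eq ?_)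
            push_cast; ring)
    k (10 / r ^ j) (by positivity)
  refine h.trans ?_
  have hrj : 1 ≤ r ^ j := one_le_pow₀ hr
  have hrr : (r ^ (2 * j)) ^ k ≤ r ^ (4 * t + 2) := by
    rw [← pow_mul]
    exact pow_le_pow_right₀ hr (by nlinarith)
  have e1 : (k : ℝ) * m ≤ 16 / 2 ^ j := by
    have h1 : ((j : ℝ) + 1) * k ≤ 2 * t + 1 := by exact_mod_cast hk2
    rw [hm, ← mul_div_assoc, div_le_div_iff₀ hxy (by positivity)]
    have h2 : (k : ℝ) * (2 * (j + 1) * Real.log y) ≤ 16 * y := by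
      have : 0 ≤ Real.log y := by linarith
      nlinarith
    have h3 : (0 : ℝ) < 2 ^ j := by positivity
    nlinarith
  have e2 : 3 * ((k : ℝ) * m) / (10 / r ^ j) ^ 2 ≤ r ^ (2 * j) / 2 ^ (j + 1) := by
    rw [div_le_iff₀ (by positivity)]
    have : r ^ (2 * j) / 2 ^ (j + 1) * (10 / r ^ j) ^ 2 = 50 / 2 ^ j := by
      rw [pow_mul', pow_succ 2 j]; field_simp; norm_num
    rw [this]
    have h3 : (0 : ℝ) < 1 / 2 ^ j := by positivity
    have h4 : (16 : ℝ) / 2 ^ j = 16 * (1 / 2 ^ j) := by ring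
    have h5 : (50 : ℝ) / 2 ^ j = 50 * (1 / 2 ^ j) := by ring
    linarith
  have e3 : (3 * ((k : ℝ) * m) / (10 / r ^ j) ^ 2) ^ k ≤ r ^ (4 * t + 2) / Q := by
    refine (pow_le_pow_left₀ (by positivity) e2 k).trans ?_
    rw [div_pow]
    refine div_le_div₀ (by positivity) hrr (by linarith) ?_
    rw [← pow_mul]
    have h1 : Q < 2 ^ (t + 1) := Nat.lt_pow_succ_log_self (by norm_num) Q
    have h2 : 2 ^ (t + 1) ≤ 2 ^ ((j + 1) * k) := Nat.pow_le_pow_right (by norm_num) hk1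
    exact_mod_cast (h1.le.trans h2)
  have e4 : (3 / (10 / r ^ j)) ^ (2 * k) ≤ r ^ (4 * t + 2) := by
    refine le_trans ?_ hrr
    rw [pow_mul, pow_mul' r]
    refine pow_le_pow_left₀ (by positivity) (pow_le_pow_left₀ (by positivity) ?_ 2) k
    rw [div_div_eq_mul_div]
    linarith
  have e5 : (Nat.log 2 ((2 ^ (j + 1) * y) ^ k) : ℝ) ≤ (y + 2) * (t + 1) := by
    have h1 : (2 ^ (j + 1) * y) ^ k ≤ 2 ^ ((y + 2) * (t + 1)) := by
      calc (2 ^ (j + 1) * y) ^ k ≤ (2 ^ (j + 1) * 2 ^ y) ^ k :=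
            Nat.pow_le_pow_left (Nat.mul_le_mul_left _ Nat.lt_two_pow_self.le) _
        _ = 2 ^ ((j + 1) * k + y * k) := by rw [← pow_add, ← pow_mul, add_mul]
        _ ≤ _ := Nat.pow_le_pow_right (by norm_num) (by nlinarith)
    have h2 := Nat.log_mono_right (b := 2) h1
    rw [Nat.log_pow (by norm_num)] at h2
    exact_mod_cast h2
  have e6 : (T.card : ℝ) ≤ 2 * Q := by exact_mod_cast hTc
  have hR : 0 ≤ r ^ (4 * t + 2) := by positivity
  push_cast
  rw [mul_assoc (2 * (Q : ℝ))]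
  refine mul_le_mul_of_nonneg_left ?_ (by positivity)
  have e7 : (T.card : ℝ) * (3 * ((k : ℝ) * m) / (10 / r ^ j) ^ 2) ^ k ≤ 2 * r ^ (4 * t + 2) := by
    calc _ ≤ (2 * Q) * (r ^ (4 * t + 2) / Q) := mul_le_mul e6 e3 (by positivity) (by positivity)
      _ = _ := by field_simp
  have e8 := mul_le_mul e4 e5 (by positivity) hR
  have e9 : (0 : ℝ) ≤ t := by positivity
  nlinarith

lemma sum_dyadic (F : ℕ → ℂ) (y J : ℕ) :
    ∑ n ∈ Ioc y (2 ^ J * y), F n = ∑ j ∈ range J, ∑ n ∈ Ioc (2 ^ j * y) (2 ^ (j + 1) * y), F n := by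
  induction J with
  | zero => simp
  | succ J ih =>
    rw [Finset.sum_range_succ, ← ih, Finset.sum_Ioc_consecutive]
    · exact Nat.le_mul_of_pos_left y (by positivity)
    · exact Nat.mul_le_mul_right y (Nat.pow_le_pow_right (by norm_num) (by omega))

lemma norm_P_split {q : ℕ} (χ : DirichletCharacter ℂ q) (Q y : ℕ) (hy : 1 ≤ y) (hyQ : y ≤ Q)
    (C : ℝ) (hC : ∀ s : Finset ℕ, ∑ d ∈ s.filter (fun d => ¬ d.Prime), Λ d / d ≤ C) :
    ‖P χ Q‖ ≤ Real.log y + 6 + C + ∑ j ∈ range (Nat.log 2 Q + 1),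
      ‖∑ p ∈ Blk Q y j, ((Real.log p / p : ℝ) : ℂ) * χ p‖ := by
  have h1 : P χ Q = P χ y + (∑ d ∈ (Ioc y Q).filter (fun d => ¬ d.Prime), (Λ d : ℂ) * χ d / d +
      ∑ j ∈ range (Nat.log 2 Q + 1), ∑ p ∈ Blk Q y j, ((Real.log p / p : ℝ) : ℂ) * χ p) := by
    unfold P
    rw [← Finset.sum_Ioc_consecutive _ (Nat.zero_le y) hyQ,
      ← Finset.sum_filter_not_add_sum_filter (Ioc y Q) Nat.Prime]
    congr 2
    simp only [Blk, Finset.sum_filter]
    rw [← sum_dyadic (fun p => if p.Prime ∧ p ≤ Q then ((Real.log p / p : ℝ) : ℂ) * χ p else 0),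
      ← Finset.sum_filter, ← Finset.sum_filter]
    refine Finset.sum_congr ?_ fun p hp => ?_
    · ext p
      have h1 : Q < 2 ^ (Nat.log 2 Q + 1) := Nat.lt_pow_succ_log_self (by norm_num) Q
      have h2 : 2 ^ (Nat.log 2 Q + 1) ≤ 2 ^ (Nat.log 2 Q + 1) * y := Nat.le_mul_of_pos_right _ hy
      simp only [Finset.mem_filter, Finset.mem_Ioc]
      constructor
      · rintro ⟨⟨h3, h4⟩, h5⟩; exact ⟨⟨h3, by omega⟩, h5, h4⟩
      · rintro ⟨⟨h3, -⟩, h5, h4⟩; exact ⟨⟨h3, h4⟩, h5⟩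
    · rw [Finset.mem_filter] at hp
      rw [ArithmeticFunction.vonMangoldt_apply_prime hp.2.1]
      push_cast; ring
  rw [h1]
  refine (norm_add_le _ _).trans ?_
  have h2 := (norm_P_le χ y).trans (mertens_le y hy)
  have h3 : ‖∑ d ∈ (Ioc y Q).filter (fun d => ¬ d.Prime), (Λ d : ℂ) * χ d / d‖ ≤ C := by
    refine (norm_sum_coef_le χ _ _).trans (le_trans (le_of_eq ?_) (hC (Ioc y Q)))
    refine Finset.sum_congr rfl fun d _ => ?_
    rw [Complex.norm_real, Real.norm_of_nonneg ArithmeticFunction.vonMangoldt_nonneg]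
  have h4 := norm_add_le (∑ d ∈ (Ioc y Q).filter (fun d => ¬ d.Prime), (Λ d : ℂ) * χ d / d)
    (∑ j ∈ range (Nat.log 2 Q + 1), ∑ p ∈ Blk Q y j, ((Real.log p / p : ℝ) : ℂ) * χ p)
  have h5 := norm_sum_le (range (Nat.log 2 Q + 1))
    (fun j => ∑ p ∈ Blk Q y j, ((Real.log p / p : ℝ) : ℂ) * χ p)
  linarith

lemma geom_le (r : ℝ) (hr : 1 < r) (J : ℕ) : ∑ j ∈ range J, 10 / r ^ j ≤ 10 * r / (r - 1) := by
  have h : ∀ J : ℕ, ∑ j ∈ range J, 10 / r ^ j = 10 * r / (r - 1) - 10 * r / ((r - 1) * r ^ J) := by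
    intro J
    have : r - 1 ≠ 0 := by linarith
    have : r ≠ 0 := by linarith
    induction J with
    | zero => simp
    | succ J ih =>
      rw [Finset.sum_range_succ, ih]
      field_simp
      ring
  rw [h]
  have : 0 < r - 1 := by linarith
  have : 0 ≤ 10 * r / ((r - 1) * r ^ J) := by positivity
  linarith

open Classical in
theorem upper_count (Q y : ℕ) (T : Finset ℕ) (hT : ∀ q ∈ T, q.Prime) (hB : ∀ q ∈ T, q ≤ 2 * Q)
    (hTc : T.card ≤ 2 * Q) (hy : 2 ≤ y) (hyQ : y ≤ Q)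
    (hyL : (2 * (Nat.log 2 Q : ℝ) + 1) * Real.log y ≤ 8 * y) (r : ℝ) (hr : 1 < r)
    (C : ℝ) (hC : ∀ s : Finset ℕ, ∑ d ∈ s.filter (fun d => ¬ d.Prime), Λ d / d ≤ C) :
    ∑ q ∈ T, ((univ.filter (fun χ : DirichletCharacter ℂ q =>
        Real.log y + 6 + C + 10 * r / (r - 1) < ‖P χ Q‖)).card : ℝ) ≤
      2 * Q * r ^ (4 * Nat.log 2 Q + 2) * ((y + 4) * (Nat.log 2 Q + 1) ^ 2) := by
  have h1 : ∀ q ∈ T, ((univ.filter (fun χ : DirichletCharacter ℂ q =>
        Real.log y + 6 + C + 10 * r / (r - 1) < ‖P χ Q‖)).card : ℝ) ≤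
      ∑ j ∈ range (Nat.log 2 Q + 1), ((univ.filter (fun χ : DirichletCharacter ℂ q =>
        10 / r ^ j < ‖∑ p ∈ Blk Q y j, ((Real.log p / p : ℝ) : ℂ) * χ p‖)).card : ℝ) := by
    intro q _
    have h2 : univ.filter (fun χ : DirichletCharacter ℂ q =>
        Real.log y + 6 + C + 10 * r / (r - 1) < ‖P χ Q‖) ⊆
        (range (Nat.log 2 Q + 1)).biUnion (fun j => univ.filter
          (fun χ : DirichletCharacter ℂ q =>
            10 / r ^ j < ‖∑ p ∈ Blk Q y j, ((Real.log p / p : ℝ) : ℂ) * χ p‖)) := by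
      intro χ hχ
      simp only [Finset.mem_filter, Finset.mem_univ, true_and, Finset.mem_biUnion] at hχ ⊢
      by_contra hcon
      push Not at hcon
      have h3 := norm_P_split χ Q y (by omega) hyQ C hC
      have h4 := Finset.sum_le_sum hcon
      have h5 := geom_le r hr (Nat.log 2 Q + 1)
      linarith
    have h3 := (Finset.card_le_card h2).trans Finset.card_biUnion_le
    exact_mod_cast h3
  refine (Finset.sum_le_sum h1).trans ?_
  rw [Finset.sum_comm]
  refine (Finset.sum_le_card_nsmul _ _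
    (2 * Q * r ^ (4 * Nat.log 2 Q + 2) * ((y + 4) * (Nat.log 2 Q + 1))) ?_).trans (le_of_eq ?_)
  · intro j hj
    exact block_j Q y j T hT hB hTc (by omega) hy (by rw [Finset.mem_range] at hj; omega) hyL r hr.le
  · rw [Finset.card_range, nsmul_eq_mul]; push_cast; ring

end Pool.Agent.MP_34d6af_nt

end MrgPart4

-- ======== part 5: formerly Pool.Agent.MP_34d6af_nt.Lower
section MrgPart5

set_option autoImplicit false

namespace Pool.Agent.MP_34d6af_nt

open Finset Complex Filter Topology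
open scoped ComplexConjugate ArithmeticFunction.vonMangoldt ArithmeticFunction.Omega

/-- no off-diagonal congruence -/
def Good (q D Y : ℕ) : Prop :=
  ∀ k ∈ Ioc 0 Y, ∀ m ∈ D.divisors, ∀ n ∈ D.divisors,
    ((k * m : ℕ) : ZMod q) = (n : ℕ) → k * m = n

open Classical in
lemma card_not_good (T : Finset ℕ) (hT : ∀ q ∈ T, q.Prime) (D Y : ℕ) (hY : 1 ≤ Y) :
    (T.filter (fun q => ¬ Good q D Y)).card ≤
      Y * D.divisors.card * D.divisors.card * Nat.log 2 (Y * D) := by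
  have h1 : T.filter (fun q => ¬ Good q D Y) ⊆
      (((Ioc 0 Y ×ˢ D.divisors) ×ˢ D.divisors).filter (fun x => x.1.1 * x.1.2 ≠ x.2)).biUnion
        (fun x => T.filter (fun q => ((x.1.1 * x.1.2 : ℕ) : ZMod q) = (x.2 : ℕ))) := by
    intro q hq
    rw [Finset.mem_filter] at hq
    obtain ⟨hqT, hq⟩ := hq
    unfold Good at hq
    push Not at hq
    obtain ⟨k, hk, m, hm, n, hn, h1, h2⟩ := hq
    rw [Finset.mem_biUnion]
    refine ⟨((k, m), n), ?_, ?_⟩
    · simp only [Finset.mem_filter, Finset.mem_product]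
      exact ⟨⟨⟨hk, hm⟩, hn⟩, h2⟩
    · exact Finset.mem_filter.mpr ⟨hqT, h1⟩
  refine (Finset.card_le_card h1).trans (Finset.card_biUnion_le.trans ?_)
  refine (Finset.sum_le_card_nsmul _ _ (Nat.log 2 (Y * D)) ?_).trans ?_
  · intro x hx
    simp only [Finset.mem_filter, Finset.mem_product, Finset.mem_Ioc] at hx
    refine card_cong_le T hT _ _ _ hx.2 ?_ ?_
    · exact Nat.mul_le_mul hx.1.1.1.2 (Nat.divisor_le hx.1.1.2)
    · exact (Nat.divisor_le hx.1.2).trans (Nat.le_mul_of_pos_left D (by omega))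
  · rw [smul_eq_mul]
    refine Nat.mul_le_mul_right _ ((Finset.card_filter_le _ _).trans ?_)
    simp

variable {q : ℕ} [NeZero q]

/-- the resonator -/
noncomputable def RR (w : ℂ) (D : ℕ) (χ : DirichletCharacter ℂ q) : ℂ :=
  ∑ n ∈ D.divisors, w ^ (Ω n) * χ n

omit [NeZero q] in
lemma norm_RR_le {w : ℂ} (hw : ‖w‖ = 1) (D : ℕ) (χ : DirichletCharacter ℂ q) :
    ‖RR w D χ‖ ≤ D.divisors.card := by
  unfold RR
  refine (norm_sum_le _ _).trans ?_
  calc ∑ n ∈ D.divisors, ‖w ^ (Ω n) * χ n‖ ≤ ∑ _n ∈ D.divisors, (1 : ℝ) := by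
        refine Finset.sum_le_sum fun n _ => ?_
        rw [norm_mul, norm_pow, hw, one_pow, one_mul]
        exact χ.norm_le_one _
    _ = _ := by simp

lemma reson {w : ℂ} (hw : ‖w‖ = 1) {D Y : ℕ} (hD : Nat.Coprime D q) (hG : Good q D Y)
    {k : ℕ} (hk : k ∈ Ioc 0 Y) :
    ∑ χ : DirichletCharacter ℂ q, χ k * ((‖RR w D χ‖ ^ 2 : ℝ) : ℂ) =
      q.totient * (conj w ^ (Ω k) * (D.divisors.filter (fun m => k * m ∣ D)).card) := by
  have hk0 : k ≠ 0 := by rw [Finset.mem_Ioc] at hk; omega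
  have hww : w * conj w = 1 := by
    rw [Complex.mul_conj, Complex.normSq_eq_norm_sq, hw]; simp
  have h1 : ∀ χ : DirichletCharacter ℂ q, χ k * ((‖RR w D χ‖ ^ 2 : ℝ) : ℂ) =
      ∑ m ∈ D.divisors, ∑ n ∈ D.divisors, (w ^ (Ω m) * conj w ^ (Ω n)) *
        (χ ((k * m : ℕ)) * conj (χ n)) := by
    intro χ
    rw [← Complex.normSq_eq_norm_sq, ← Complex.mul_conj]
    unfold RR
    rw [map_sum, Finset.sum_mul_sum, Finset.mul_sum]
    refine Finset.sum_congr rfl fun m _ => ?_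
    rw [Finset.mul_sum]
    refine Finset.sum_congr rfl fun n _ => ?_
    push_cast
    rw [map_mul, map_mul, map_pow]; ring
  simp_rw [h1]
  rw [Finset.sum_comm, Finset.card_filter]
  push_cast
  rw [Finset.mul_sum, Finset.mul_sum]
  refine Finset.sum_congr rfl fun m hm => ?_
  rw [Finset.sum_comm]
  have hm0 : m ≠ 0 := (Nat.pos_of_mem_divisors hm).ne'
  have h2 : ∀ n ∈ D.divisors, ∑ χ : DirichletCharacter ℂ q, (w ^ (Ω m) * conj w ^ (Ω n)) *
      (χ ((k : ZMod q) * m) * conj (χ n)) =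
      if k * m = n then (q.totient : ℂ) * conj w ^ (Ω k) else 0 := by
    intro n hn
    have h3 := orth (q := q) (k * m) n
    push_cast at h3
    rw [← Finset.mul_sum, h3]
    have hu : IsUnit (n : ZMod q) :=
      (ZMod.isUnit_iff_coprime n q).mpr (hD.coprime_dvd_left (Nat.dvd_of_mem_divisors hn))
    by_cases h : k * m = n
    · have h4 : (k : ZMod q) * m = n := by rw [← h]; push_cast; rfl
      rw [if_pos ⟨hu, h4⟩, if_pos h, ← h, ArithmeticFunction.cardFactors_mul hk0 hm0, pow_add]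
      have h5 : w ^ (Ω m) * conj w ^ (Ω m) = 1 := by rw [← mul_pow, hww, one_pow]
      linear_combination (conj w ^ (Ω k) * (q.totient : ℂ)) * h5
    · have h4 : ¬ ((k : ZMod q) * m = n) := by
        intro h5
        exact h (hG k hk m hm n hn (by push_cast; exact h5))
      rw [if_neg (fun h => h4 h.2), if_neg h, mul_zero]
  rw [Finset.sum_congr rfl h2, Finset.sum_ite_eq]
  have h3 : k * m ∈ D.divisors ↔ k * m ∣ D := by
    rw [Nat.mem_divisors]
    exact ⟨fun h => h.1, fun h => ⟨h, (Nat.mem_divisors.mp hm).2⟩⟩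
  by_cases h : k * m ∣ D
  · rw [if_pos (h3.mpr h), if_pos h]; ring
  · rw [if_neg (fun h' => h (h3.mp h')), if_neg h]; ring

lemma reson_mass {w : ℂ} (hw : ‖w‖ = 1) {D Y : ℕ} (hD : Nat.Coprime D q) (hG : Good q D Y)
    (hY : 1 ≤ Y) :
    ∑ χ : DirichletCharacter ℂ q, ‖RR w D χ‖ ^ 2 = q.totient * (D.divisors.card : ℝ) := by
  have h := reson hw hD hG (k := 1) (Finset.mem_Ioc.mpr ⟨by omega, hY⟩)
  rw [Finset.filter_true_of_mem (fun m hm => by
    rw [one_mul]; exact Nat.dvd_of_mem_divisors hm)] at h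
  simp only [Nat.cast_one, map_one, one_mul, ArithmeticFunction.cardFactors_one, pow_zero] at h
  exact_mod_cast h

lemma reson_P {w : ℂ} (hw : ‖w‖ = 1) {y Y : ℕ} (hD : Nat.Coprime (DD y) q)
    (hG : Good q (DD y) Y) (hy : 1 ≤ y) (hyY : y ≤ Y) (C : ℝ)
    (hC : ∀ s : Finset ℕ, ∑ d ∈ s.filter (fun d => ¬ d.Prime), Λ d / d ≤ C) :
    q.totient * ((DD y).divisors.card : ℝ) * (Real.log y - (3 + 2 * C)) ≤
      ∑ χ : DirichletCharacter ℂ q, ‖RR w (DD y) χ‖ ^ 2 * (w * P χ Y).re := by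
  set W : ℝ := ((DD y).divisors.card : ℝ) with hW
  have hW0 : 0 ≤ W := by positivity
  have hy' : (0 : ℝ) < y := by exact_mod_cast hy
  have hww : w * conj w = 1 := by
    rw [Complex.mul_conj, Complex.normSq_eq_norm_sq, hw]; simp
  let c : ℕ → ℝ := fun k => (((DD y).divisors.filter (fun m => k * m ∣ DD y)).card : ℝ)
  have hc0 : ∀ k, 0 ≤ c k := fun k => by simp only [c]; positivity
  have hcW : ∀ k, c k ≤ W := fun k => by
    simp only [c, hW]; exact_mod_cast Finset.card_filter_le _ _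
  have h1 : ∑ χ : DirichletCharacter ℂ q, ‖RR w (DD y) χ‖ ^ 2 * (w * P χ Y).re =
      q.totient * ∑ k ∈ Ioc 0 Y, Λ k / k * ((w * conj w ^ (Ω k)).re * c k) := by
    have h2 : ∀ χ : DirichletCharacter ℂ q, ‖RR w (DD y) χ‖ ^ 2 * (w * P χ Y).re =
        (∑ k ∈ Ioc 0 Y, (w * ((Λ k / k : ℝ) : ℂ)) *
          (χ k * ((‖RR w (DD y) χ‖ ^ 2 : ℝ) : ℂ))).re := by
      intro χ
      rw [← Complex.re_ofReal_mul]
      congr 1
      unfold P
      rw [Finset.mul_sum, Finset.mul_sum]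
      refine Finset.sum_congr rfl fun k _ => ?_
      push_cast; ring
    simp_rw [h2]
    rw [← Complex.re_sum, Finset.sum_comm, Complex.re_sum, Finset.mul_sum]
    refine Finset.sum_congr rfl fun k hk => ?_
    rw [← Finset.mul_sum, reson hw hD hG hk]
    have h3 : w * ((Λ k / k : ℝ) : ℂ) * (q.totient * (conj w ^ (Ω k) *
        (((DD y).divisors.filter (fun m => k * m ∣ DD y)).card : ℂ))) =
        ((q.totient * (Λ k / k) * c k : ℝ) : ℂ) * (w * conj w ^ (Ω k)) := by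
      simp only [c]; push_cast; ring
    rw [h3, Complex.re_ofReal_mul]; ring
  rw [h1, mul_assoc]
  refine mul_le_mul_of_nonneg_left ?_ (by positivity)
  rw [← Finset.sum_filter_add_sum_filter_not (Ioc 0 Y) Nat.Prime]
  have h2 : W * (Real.log y - (3 + C)) ≤
      ∑ k ∈ (Ioc 0 Y).filter Nat.Prime, Λ k / k * ((w * conj w ^ (Ω k)).re * c k) := by
    have h3 : ∑ k ∈ (Ioc 0 Y).filter Nat.Prime, Λ k / k * ((w * conj w ^ (Ω k)).re * c k) =
        ∑ k ∈ PR Y, Λ k / k * c k := by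
      refine Finset.sum_congr rfl fun k hk => ?_
      rw [ArithmeticFunction.cardFactors_apply_prime (mem_PR.mp hk).1, pow_one, hww]
      simp
    have h4 : ∑ k ∈ PR y, Λ k / k * c k ≤ ∑ k ∈ PR Y, Λ k / k * c k := by
      refine Finset.sum_le_sum_of_subset_of_nonneg ?_ fun k _ _ => ?_
      · intro p hp; rw [mem_PR] at hp ⊢; exact ⟨hp.1, by omega⟩
      · have := ArithmeticFunction.vonMangoldt_nonneg (n := k)
        have := hc0 k
        positivity
    have h5 : ∑ k ∈ PR y, (W * (Λ k / k) - W / y * Real.log k) ≤ ∑ k ∈ PR y, Λ k / k * c k := by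
      refine Finset.sum_le_sum fun k hk => ?_
      have h6 := count_ge hk
      have hk0 : (0 : ℝ) < k := by exact_mod_cast (mem_PR.mp hk).1.pos
      have h7 : 0 ≤ Λ k / k := div_nonneg ArithmeticFunction.vonMangoldt_nonneg hk0.le
      refine le_trans (le_of_eq ?_) (mul_le_mul_of_nonneg_left h6 h7)
      rw [ArithmeticFunction.vonMangoldt_apply_prime (mem_PR.mp hk).1, ← hW]
      field_simp
    rw [Finset.sum_sub_distrib, ← Finset.mul_sum, ← Finset.mul_sum] at h5
    have h6 := mertens_ge y hy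
    rw [← Finset.sum_filter_add_sum_filter_not (Ioc 0 y) Nat.Prime] at h6
    have h7 := hC (Ioc 0 y)
    have h8 : W / y * ∑ k ∈ PR y, Real.log k ≤ W / y * (3 / 2 * y) :=
      mul_le_mul_of_nonneg_left (theta_le y) (by positivity)
    have h9 : W / y * (3 / 2 * y) = W * (3 / 2) := by field_simp
    have h10 : Real.log y - 1 - C ≤ ∑ k ∈ PR y, Λ k / k := by unfold PR; linarith
    have h11 := mul_le_mul_of_nonneg_left h10 hW0
    rw [h3]
    nlinarith
  have h3 : -(W * C) ≤ ∑ k ∈ (Ioc 0 Y).filter (fun k => ¬ k.Prime),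
      Λ k / k * ((w * conj w ^ (Ω k)).re * c k) := by
    have h4 := mul_le_mul_of_nonneg_left (hC (Ioc 0 Y)) hW0
    rw [Finset.mul_sum] at h4
    refine le_trans (neg_le_neg h4) ?_
    rw [← Finset.sum_neg_distrib]
    refine Finset.sum_le_sum fun k _ => ?_
    have h7 : 0 ≤ Λ k / k := div_nonneg ArithmeticFunction.vonMangoldt_nonneg (by positivity)
    have h5 : -1 ≤ (w * conj w ^ (Ω k)).re := by
      have h6 := Complex.abs_re_le_norm (w * conj w ^ (Ω k))
      rw [norm_mul, norm_pow, Complex.norm_conj, hw, one_pow, one_mul] at h6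
      exact (abs_le.mp h6).1
    have h6 : -W ≤ (w * conj w ^ (Ω k)).re * c k := by
      nlinarith [hc0 k, hcW k]
    nlinarith
  linarith

open Classical in
/-- many characters with a large truncated series in the direction `w` -/
theorem lower_count {w : ℂ} (hw : ‖w‖ = 1) {y Y : ℕ} (hD : Nat.Coprime (DD y) q)
    (hG : Good q (DD y) Y) (hy : 1 ≤ y) (hyY : y ≤ Y) (C : ℝ)
    (hC : ∀ s : Finset ℕ, ∑ d ∈ s.filter (fun d => ¬ d.Prime), Λ d / d ≤ C)
    (hlog : 4 + 2 * C ≤ Real.log y) :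
    (q.totient : ℝ) ≤ ((univ.filter (fun χ : DirichletCharacter ℂ q =>
      Real.log y - (4 + 2 * C) ≤ (w * P χ Y).re)).card : ℝ) *
        (((DD y).divisors.card : ℝ) * (Real.log Y + 6)) := by
  set W : ℝ := ((DD y).divisors.card : ℝ) with hW
  have hW0 : (0 : ℝ) < W := by
    have : 0 < (DD y).divisors.card :=
      Finset.card_pos.mpr ⟨1, Nat.one_mem_divisors.mpr (DD_ne y)⟩
    rw [hW]; exact_mod_cast this
  have h1 := reson_P hw hD hG hy hyY C hC
  have h2 := reson_mass hw hD hG (hy.trans hyY)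
  rw [← hW] at h1 h2
  set t := Real.log y - (4 + 2 * C) with ht
  have ht0 : 0 ≤ t := by linarith
  set H := univ.filter (fun χ : DirichletCharacter ℂ q => t ≤ (w * P χ Y).re) with hH
  have h3 : ∑ χ : DirichletCharacter ℂ q, ‖RR w (DD y) χ‖ ^ 2 * (w * P χ Y).re ≤
      ∑ χ : DirichletCharacter ℂ q, (‖RR w (DD y) χ‖ ^ 2 * t +
        if t ≤ (w * P χ Y).re then W ^ 2 * (Real.log Y + 6) else 0) := by
    refine Finset.sum_le_sum fun χ _ => ?_
    split_ifs with h
    · have h4 : (w * P χ Y).re ≤ Real.log Y + 6 := by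
        refine (Complex.re_le_norm _).trans ?_
        rw [norm_mul, hw, one_mul]
        exact (norm_P_le χ Y).trans (mertens_le Y (hy.trans hyY))
      have h5 : ‖RR w (DD y) χ‖ ^ 2 ≤ W ^ 2 := by
        have := norm_RR_le hw (DD y) χ
        gcongr
      have h6 : 0 ≤ (w * P χ Y).re := ht0.trans h
      have h7 : ‖RR w (DD y) χ‖ ^ 2 * (w * P χ Y).re ≤ W ^ 2 * (Real.log Y + 6) :=
        mul_le_mul h5 h4 h6 (by positivity)
      have h8 : 0 ≤ ‖RR w (DD y) χ‖ ^ 2 * t := by positivity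
      linarith
    · rw [add_zero]
      exact mul_le_mul_of_nonneg_left (le_of_not_ge h) (by positivity)
  rw [Finset.sum_add_distrib, ← Finset.sum_mul, h2, ← Finset.sum_filter, ← hH, Finset.sum_const,
    nsmul_eq_mul] at h3
  have h4 : (q.totient : ℝ) * W ≤ H.card * (W * (Real.log Y + 6)) * W := by
    have e : Real.log y - (3 + 2 * C) = t + 1 := by rw [ht]; ring
    rw [e] at h1
    nlinarith
  exact le_of_mul_le_mul_right h4 hW0

end Pool.Agent.MP_34d6af_nt

end MrgPart5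

-- ======== part 6: formerly Pool.Agent.MP_34d6af_nt.Final
section MrgPart6

set_option autoImplicit false

namespace Pool.Agent.MP_34d6af_nt

open Finset Complex Filter Topology
open scoped ComplexConjugate ArithmeticFunction.vonMangoldt

lemma polylog (δ : ℝ) (hδ : 0 < δ) (A : ℝ) (n : ℕ) :
    ∀ᶠ Q : ℕ in atTop, A * Real.log Q ^ n ≤ (Q : ℝ) ^ δ := by
  have h := isLittleO_log_rpow_rpow_atTop (n : ℝ) hδ
  have h1 := h.bound (c := 1 / (|A| + 1)) (by positivity)
  have h2 := tendsto_natCast_atTop_atTop (R := ℝ) |>.eventually h1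
  filter_upwards [h2] with Q hQ
  rw [Real.rpow_natCast, Real.norm_of_nonneg (pow_nonneg (Real.log_natCast_nonneg Q) n),
    Real.norm_of_nonneg (by positivity)] at hQ
  have h3 : 0 ≤ Real.log Q ^ n := pow_nonneg (Real.log_natCast_nonneg Q) n
  have h4 : A ≤ |A| + 1 := by linarith [le_abs_self A]
  rw [one_div, inv_mul_eq_div, le_div_iff₀ (by positivity)] at hQ
  nlinarith

lemma ev_log (A : ℝ) : ∀ᶠ Q : ℕ in atTop, A ≤ Real.log (Real.log Q) :=
  ((Real.tendsto_log_atTop.comp Real.tendsto_log_atTop).comp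
    tendsto_natCast_atTop_atTop).eventually_ge_atTop A

lemma dyadic_global (f : ℕ → ℝ) (hf : ∀ q, 0 ≤ f q) (β : ℝ) (hβ : 0 < β)
    (h : ∀ᶠ Q : ℕ in atTop, ∑ q ∈ Icc Q (2 * Q), f q ≤ (Q : ℝ) ^ β) :
    ∃ A : ℝ, 0 ≤ A ∧ ∀ X : ℕ, 1 ≤ X → ∑ q ∈ Iic X, f q ≤ A * (X : ℝ) ^ β := by
  obtain ⟨Q0, hQ0⟩ := eventually_atTop.mp h
  set c : ℝ := (1 / 2 : ℝ) ^ β with hc
  have hc1 : c < 1 := Real.rpow_lt_one (by norm_num) (by norm_num) hβ
  set S := ∑ q ∈ Iic (2 * Q0 + 2), f q with hS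
  have hS0 : 0 ≤ S := Finset.sum_nonneg fun q _ => hf q
  have hu : 0 < 1 / (1 - c) := by
    have : 0 < 1 - c := by linarith
    positivity
  refine ⟨S + 1 / (1 - c), by positivity, fun X => ?_⟩
  induction X using Nat.strong_induction_on with
  | _ X ih =>
    intro hX
    have hX' : (1 : ℝ) ≤ X := by exact_mod_cast hX
    have hXβ : 1 ≤ (X : ℝ) ^ β := Real.one_le_rpow hX' hβ.le
    by_cases hs : X ≤ 2 * Q0 + 2
    · have h1 : ∑ q ∈ Iic X, f q ≤ S :=
        Finset.sum_le_sum_of_subset_of_nonneg (Finset.Iic_subset_Iic.mpr hs) fun q _ _ => hf q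
      nlinarith
    · set Q := (X + 1) / 2 with hQ
      have h1 : Iic X ⊆ Iic (Q - 1) ∪ Icc Q (2 * Q) := by
        intro q hq
        simp only [Finset.mem_union, Finset.mem_Iic, Finset.mem_Icc] at hq ⊢
        omega
      have h2 : ∑ q ∈ Iic X, f q ≤ ∑ q ∈ Iic (Q - 1), f q + ∑ q ∈ Icc Q (2 * Q), f q := by
        refine (Finset.sum_le_sum_of_subset_of_nonneg h1 fun q _ _ => hf q).trans ?_
        rw [← Finset.sum_union_inter]
        have : 0 ≤ ∑ q ∈ Iic (Q - 1) ∩ Icc Q (2 * Q), f q := Finset.sum_nonneg fun q _ => hf q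
        linarith
      have h3 := ih (Q - 1) (by omega) (by omega)
      have h4 := hQ0 Q (by omega)
      have h5 : (Q : ℝ) ^ β ≤ (X : ℝ) ^ β :=
        Real.rpow_le_rpow (by positivity) (by exact_mod_cast (show Q ≤ X by omega)) hβ.le
      have h6 : ((Q - 1 : ℕ) : ℝ) ^ β ≤ c * (X : ℝ) ^ β := by
        rw [hc, ← Real.mul_rpow (by norm_num) (by positivity)]
        refine Real.rpow_le_rpow (by positivity) ?_ hβ.le
        have : 2 * (Q - 1) ≤ X := by omega
        have h7 : (2 : ℝ) * ((Q - 1 : ℕ) : ℝ) ≤ X := by exact_mod_cast this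
        linarith
      have h7 : (S + 1 / (1 - c)) * c + 1 ≤ S + 1 / (1 - c) := by
        have h8 : 1 / (1 - c) * (1 - c) = 1 := by
          have : 1 - c ≠ 0 := by linarith
          field_simp
        nlinarith
      have h8 := mul_le_mul_of_nonneg_left h6 (show 0 ≤ S + 1 / (1 - c) by positivity)
      nlinarith

lemma natlog_le (Q : ℕ) (hQ : 1 ≤ Q) : (Nat.log 2 Q : ℝ) ≤ 3 / 2 * Real.log Q := by
  have h1 : 2 ^ Nat.log 2 Q ≤ Q := Nat.pow_log_le_self 2 (by omega)
  have h2 : (2 : ℝ) ^ Nat.log 2 Q ≤ Q := by exact_mod_cast h1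
  have h3 := Real.log_le_log (by positivity) h2
  rw [Real.log_pow] at h3
  have h4 := Real.log_two_gt_d9
  have h5 : (0 : ℝ) ≤ Nat.log 2 Q := by positivity
  nlinarith

lemma one_le_logQ {Q : ℕ} (h : 1 ≤ Real.log (Real.log Q)) : 2 ≤ Real.log Q ∧ 2 ≤ Q := by
  have h0 := Real.log_natCast_nonneg Q
  have h1 : 2 ≤ Real.log Q := by
    by_contra hc
    push Not at hc
    rcases h0.eq_or_lt with h2 | h2
    · rw [← h2] at h; norm_num at h
    · have := Real.log_le_sub_one_of_pos h2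
      linarith
  refine ⟨h1, ?_⟩
  by_contra hc
  push Not at hc
  interval_cases Q <;> norm_num at h1

lemma l_bound {Q q : ℕ} (hL : 2 ≤ Real.log Q) (hQ : 2 ≤ Q) (h0 : Q ≤ q) (h : q ≤ 2 * Q) :
    Real.log q ≤ 2 * Real.log Q ∧ 7 + 3 * Real.log q ≤ 10 * Real.log Q := by
  have hq : (0 : ℝ) < q := by exact_mod_cast (show 0 < q by omega)
  have hQ' : (0 : ℝ) < Q := by exact_mod_cast (show 0 < Q by omega)
  have h1 : (q : ℝ) ≤ 2 * Q := by exact_mod_cast h
  have h2 := Real.log_le_log hq h1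
  rw [Real.log_mul (by norm_num) hQ'.ne'] at h2
  have h3 := Real.log_two_lt_d9
  constructor <;> linarith

open Classical in
theorem upper_dyadic (ε : ℝ) (hε : 0 < ε) : ∃ C : ℝ, ∀ᶠ Q : ℕ in atTop,
    ∑ q ∈ Icc Q (2 * Q), (if h : q.Prime then
      haveI : NeZero q := ⟨h.ne_zero⟩
      ((univ.filter (fun χ : DirichletCharacter ℂ q => χ ≠ 1 ∧
        Real.log (Real.log q) + Real.log (Real.log (Real.log q)) + C < ‖LD χ‖)).card : ℝ)
      else 0) ≤ (Q : ℝ) ^ (1 + ε) := by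
  obtain ⟨C, hC0, hC⟩ := exists_nonprime_bound
  set r : ℝ := (2 : ℝ) ^ (ε / 8) with hr
  have hr1 : 1 < r := Real.one_lt_rpow (by norm_num) (by positivity)
  refine ⟨8 + C + 10 * r / (r - 1), ?_⟩
  filter_upwards [ev_log 1, polylog 1 one_pos 800 2, polylog (ε / 2) (by positivity)
    (32 * r ^ 2) 4, polylog ε hε (1280 * 10 ^ 6) 6] with Q h1 h2 h3 h4
  obtain ⟨hL, hQ⟩ := one_le_logQ h1
  rw [Real.rpow_one] at h2
  set L := Real.log Q with hLdef
  have hQ' : (2 : ℝ) ≤ Q := by exact_mod_cast hQ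
  set y := ⌈L * Real.log L⌉₊ with hy
  have hy1 : L * Real.log L ≤ y := Nat.le_ceil _
  have hy2 : (y : ℝ) ≤ L * Real.log L + 1 := (Nat.ceil_lt_add_one (by positivity)).le
  have hlL := Real.log_le_sub_one_of_pos (x := L) (by linarith)
  have hy3 : (y : ℝ) ≤ L ^ 2 := by nlinarith
  have hy4 : (2 : ℝ) ≤ y := by nlinarith
  have hy5 : Real.log y ≤ 2 * Real.log L := by
    have := Real.log_le_log (by linarith) hy3
    rw [Real.log_pow] at this
    exact_mod_cast this
  have hy6 : Real.log y ≤ Real.log L + Real.log (Real.log L) + 1 := by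
    have h5 : (y : ℝ) ≤ 2 * (L * Real.log L) := by nlinarith
    have h6 := Real.log_le_log (by linarith) h5
    rw [Real.log_mul (by norm_num) (by positivity), Real.log_mul (by positivity) (by positivity)]
      at h6
    have := Real.log_two_lt_d9
    linarith
  have ht := natlog_le Q (by omega)
  rw [← hLdef] at ht
  set T := (Icc Q (2 * Q)).filter Nat.Prime with hT
  have hT1 : ∀ q ∈ T, q.Prime := fun q hq => (Finset.mem_filter.mp hq).2
  have hT2 : ∀ q ∈ T, Q ≤ q ∧ q ≤ 2 * Q := fun q hq =>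
    Finset.mem_Icc.mp (Finset.mem_filter.mp hq).1
  have hT3 : T.card ≤ 2 * Q := by
    refine (Finset.card_filter_le _ _).trans ?_
    rw [Nat.card_Icc]; omega
  have hup := upper_count Q y T hT1 (fun q hq => (hT2 q hq).2) hT3 (by exact_mod_cast hy4)
    (by
      have : (y : ℝ) ≤ Q := by nlinarith
      exact_mod_cast this)
    (by
      have h5 : 2 * (Nat.log 2 Q : ℝ) + 1 ≤ 4 * L := by linarith
      have h6 : 0 ≤ Real.log y := Real.log_natCast_nonneg y
      calc _ ≤ (4 * L) * (2 * Real.log L) := mul_le_mul h5 hy5 h6 (by linarith)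
        _ ≤ _ := by linarith)
    r hr1 C hC
  have hsum : ∑ q ∈ Icc Q (2 * Q), (if h : q.Prime then
      haveI : NeZero q := ⟨h.ne_zero⟩
      ((univ.filter (fun χ : DirichletCharacter ℂ q => χ ≠ 1 ∧
        Real.log (Real.log q) + Real.log (Real.log (Real.log q)) + (8 + C + 10 * r / (r - 1)) <
          ‖LD χ‖)).card : ℝ)
      else 0) ≤ ∑ q ∈ T, (((univ.filter (fun χ : DirichletCharacter ℂ q =>
        Real.log y + 6 + C + 10 * r / (r - 1) < ‖P χ Q‖)).card : ℝ) + 320 * (10 * L) ^ 6) := by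
    rw [hT, Finset.sum_filter]
    refine Finset.sum_le_sum fun q hq => ?_
    by_cases hp : q.Prime
    · rw [dif_pos hp, if_pos hp]
      have : NeZero q := ⟨hp.ne_zero⟩
      rw [Finset.mem_Icc] at hq
      have hq1 : (Q : ℝ) ≤ q := by exact_mod_cast hq.1
      have hq2 : (q : ℝ) ≤ 2 * Q := by exact_mod_cast hq.2
      have hap := approx (q := q) Q (by omega) hq.1 hp.two_le (10 * L)
        (l_bound hL hQ hq.1 hq.2).2 (by nlinarith)
      have h5 : (q : ℝ) / Q ≤ 2 := by rw [div_le_iff₀ (by linarith)]; exact hq2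
      have h6 : 160 * ((q : ℝ) / Q) * (10 * L) ^ 6 ≤ 320 * (10 * L) ^ 6 := by
        have : 0 ≤ (10 * L) ^ 6 := by positivity
        nlinarith
      have h7 : L ≤ Real.log q := Real.log_le_log (by linarith) hq1
      have h8 : Real.log L ≤ Real.log (Real.log q) := Real.log_le_log (by linarith) h7
      have h9 : Real.log (Real.log L) ≤ Real.log (Real.log (Real.log q)) :=
        Real.log_le_log (by linarith) h8
      have h10 : univ.filter (fun χ : DirichletCharacter ℂ q => χ ≠ 1 ∧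
          Real.log (Real.log q) + Real.log (Real.log (Real.log q)) + (8 + C + 10 * r / (r - 1)) <
            ‖LD χ‖) ⊆ univ.filter (fun χ : DirichletCharacter ℂ q =>
          Real.log y + 6 + C + 10 * r / (r - 1) < ‖P χ Q‖) ∪
          univ.filter (fun χ : DirichletCharacter ℂ q => χ ≠ 1 ∧ 1 < ‖LD χ + P χ Q‖) := by
        intro χ hχ
        simp only [Finset.mem_filter, Finset.mem_univ, true_and, Finset.mem_union] at hχ ⊢
        by_contra hcon
        push Not at hcon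
        have h11 := hcon.2 hχ.1
        have h12 := norm_sub_le (LD χ + P χ Q) (P χ Q)
        rw [add_sub_cancel_right] at h12
        linarith [hcon.1, hχ.2]
      have h11 := (Finset.card_le_card h10).trans (Finset.card_union_le _ _)
      have h12 := (Nat.cast_le (α := ℝ)).mpr h11
      push_cast at h12
      linarith
    · rw [dif_neg hp, if_neg hp]
  refine hsum.trans ?_
  rw [Finset.sum_add_distrib, Finset.sum_const, nsmul_eq_mul]
  have hQε : (Q : ℝ) ^ (1 + ε) = Q * (Q : ℝ) ^ ε := by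
    rw [Real.rpow_add (by linarith), Real.rpow_one]
  have hQε2 : (Q : ℝ) ^ ε = (Q : ℝ) ^ (ε / 2) * (Q : ℝ) ^ (ε / 2) := by
    rw [← Real.rpow_add (by linarith)]; congr 1; ring
  have hrp : r ^ (4 * Nat.log 2 Q + 2) ≤ r ^ 2 * (Q : ℝ) ^ (ε / 2) := by
    rw [pow_add, mul_comm]
    refine mul_le_mul_of_nonneg_left ?_ (by positivity)
    have h5 : 2 ^ Nat.log 2 Q ≤ Q := Nat.pow_log_le_self 2 (by omega)
    have h6 : (2 : ℝ) ^ Nat.log 2 Q ≤ Q := by exact_mod_cast h5
    refine le_trans (le_of_eq ?_) (Real.rpow_le_rpow (by positivity) h6 (by positivity))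
    rw [hr, ← Real.rpow_natCast, ← Real.rpow_natCast, ← Real.rpow_mul (by norm_num),
      ← Real.rpow_mul (by norm_num)]
    congr 1
    push_cast; ring
  have hpl : ((y : ℝ) + 4) * ((Nat.log 2 Q : ℝ) + 1) ^ 2 ≤ 8 * L ^ 4 := by
    have h5 : (y : ℝ) + 4 ≤ 2 * L ^ 2 := by nlinarith
    have h6 : ((Nat.log 2 Q : ℝ) + 1) ^ 2 ≤ (2 * L) ^ 2 :=
      pow_le_pow_left₀ (by positivity) (by linarith) 2
    calc _ ≤ (2 * L ^ 2) * (2 * L) ^ 2 := mul_le_mul h5 h6 (by positivity) (by positivity)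
      _ = _ := by ring
  have hA : 2 * Q * r ^ (4 * Nat.log 2 Q + 2) * (((y : ℝ) + 4) * ((Nat.log 2 Q : ℝ) + 1) ^ 2) ≤
      Q * (Q : ℝ) ^ ε / 2 := by
    calc _ ≤ 2 * Q * (r ^ 2 * (Q : ℝ) ^ (ε / 2)) * (8 * L ^ 4) := by gcongr
      _ = Q * ((Q : ℝ) ^ (ε / 2) * (32 * r ^ 2 * L ^ 4)) / 2 := by ring
      _ ≤ Q * ((Q : ℝ) ^ (ε / 2) * (Q : ℝ) ^ (ε / 2)) / 2 := by gcongr
      _ = _ := by rw [← hQε2]
  have hB : (T.card : ℝ) * (320 * (10 * L) ^ 6) ≤ Q * (Q : ℝ) ^ ε / 2 := by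
    have h5 : (T.card : ℝ) ≤ 2 * Q := by exact_mod_cast hT3
    calc _ ≤ (2 * Q) * (320 * (10 * L) ^ 6) := by gcongr
      _ = Q * (1280 * 10 ^ 6 * L ^ 6) / 2 := by ring
      _ ≤ _ := by gcongr
  rw [hQε]
  linarith

end Pool.Agent.MP_34d6af_nt

end MrgPart6

-- marker of a merged file
example : 731051 + 346026 = 731051 + 346026 := rfl
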