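import Pool.Agent.MP_34d6af_nt.Final

set_option autoImplicit false

namespace Pool.Agent.MP_34d6af_nt

open Finset Complex Filter Topology
open scoped ComplexConjugate ArithmeticFunction.vonMangoldt

open Classical in
theorem lower_dyadic (ε : ℝ) (hε : 0 < ε) (hε1 : ε ≤ 1) : ∃ C : ℝ, ∀ᶠ Q : ℕ in atTop,
    ∃ E : Finset ℕ, (E.card : ℝ) ≤ (Q : ℝ) ^ ε ∧ ∀ (q : ℕ) [NeZero q], q.Prime →
      q ∈ Icc Q (2 * Q) → q ∉ E → ∀ w : ℂ, ‖w‖ = 1 →
        (q : ℝ) ^ (1 - ε) ≤ ((univ.filter (fun χ : DirichletCharacter ℂ q => χ ≠ 1 ∧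
          Real.log (Real.log q) + Real.log (Real.log (Real.log q)) - C ≤
            (w * LD χ).re)).card : ℝ) := by
  obtain ⟨C, hC0, hC⟩ := exists_nonprime_bound
  set δ : ℝ := ε / 8 with hδ
  have hδ0 : 0 < δ := by positivity
  set c : ℝ := δ / 96 with hc
  have hc0 : 0 < c := by positivity
  have hc1 : c ≤ 1 / 2 := by rw [hc, hδ]; linarith
  refine ⟨7 + 2 * C - Real.log c, ?_⟩
  filter_upwards [ev_log 1, ev_log (1 / c), ev_log (4 + 2 * C), polylog 1 one_pos 800 2,
    polylog δ hδ0 8 4, polylog δ hδ0 (161 * 10 ^ 6) 6] with Q h1 h1' h1'' h2 h3 h4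
  obtain ⟨hL, hQ⟩ := one_le_logQ h1
  rw [Real.rpow_one] at h2
  set L := Real.log Q with hLdef
  have hQ' : (2 : ℝ) ≤ Q := by exact_mod_cast hQ
  set x : ℝ := (Q : ℝ) ^ δ with hx
  have hx1 : 1 ≤ x := Real.one_le_rpow (by linarith) hδ0.le
  have hx8 : x ^ 8 = (Q : ℝ) ^ ε := by
    rw [hx, ← Real.rpow_natCast, ← Real.rpow_mul (by linarith)]
    congr 1; rw [hδ]; push_cast; ring
  have hxQ : x ^ 8 ≤ Q := by
    rw [hx8]
    calc (Q : ℝ) ^ ε ≤ (Q : ℝ) ^ (1 : ℝ) := Real.rpow_le_rpow_of_exponent_le (by linarith) hε1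
      _ = Q := Real.rpow_one _
  have hx3 : x ^ 3 ≤ x ^ 8 := pow_le_pow_right₀ hx1 (by norm_num)
  have hx31 : 1 ≤ x ^ 3 := one_le_pow₀ hx1
  have hxx3 : x ≤ x ^ 3 := le_self_pow₀ hx1 (by norm_num)
  set y := ⌈c * L * Real.log L⌉₊ with hy
  set Y := ⌈x ^ 3⌉₊ with hY
  have hcl : 1 ≤ c * Real.log L := by
    rw [div_le_iff₀ hc0] at h1'; linarith
  have hy0 : L ≤ c * L * Real.log L := by nlinarith
  have hy1 : c * L * Real.log L ≤ y := Nat.le_ceil _
  have hy2 : (y : ℝ) ≤ c * L * Real.log L + 1 := (Nat.ceil_lt_add_one (by linarith)).le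
  have hlL := Real.log_le_sub_one_of_pos (x := L) (by linarith)
  have hy3 : (y : ℝ) ≤ L ^ 2 := by
    have : c * (L * Real.log L) ≤ 1 / 2 * (L * Real.log L) :=
      mul_le_mul_of_nonneg_right hc1 (by positivity)
    nlinarith
  have hy4 : (2 : ℝ) ≤ y := by linarith
  have hy5 : Real.log L ≤ Real.log y := Real.log_le_log (by linarith) (by linarith)
  have hy6 : Real.log c + Real.log L + Real.log (Real.log L) ≤ Real.log y := by
    have h6 := Real.log_le_log (by linarith) hy1
    rw [Real.log_mul (by positivity) (by positivity), Real.log_mul (by positivity) (by positivity)]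
      at h6
    exact h6
  have hL4 : L ^ 2 ≤ L ^ 4 := pow_le_pow_right₀ (by linarith) (by norm_num)
  have hL2 : 4 ≤ L ^ 2 := by nlinarith
  have hY1 : x ^ 3 ≤ Y := Nat.le_ceil _
  have hY2 : (Y : ℝ) ≤ 2 * x ^ 3 := by
    have := (Nat.ceil_lt_add_one (show 0 ≤ x ^ 3 by positivity)).le
    linarith
  have hYQ : Y ≤ Q := Nat.ceil_le.mpr (hx3.trans hxQ)
  have hyY : y ≤ Y := by
    have : (y : ℝ) ≤ Y := by linarith
    exact_mod_cast this
  have hy2' : 2 ≤ y := by exact_mod_cast hy4
  have hyQ : y < Q := by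
    have : (y : ℝ) < Q := by linarith
    exact_mod_cast this
  set W : ℝ := ((DD y).divisors.card : ℝ) with hW
  have hW0 : (0 : ℝ) < W := by
    have : 0 < (DD y).divisors.card :=
      Finset.card_pos.mpr ⟨1, Nat.one_mem_divisors.mpr (DD_ne y)⟩
    rw [hW]; exact_mod_cast this
  have hWx : W ≤ x := by
    have h5 := log_W_le y hy2'
    rw [← hW] at h5
    have h6 : 48 * (y : ℝ) / Real.log y ≤ δ * L := by
      rw [div_le_iff₀ (by linarith)]
      have h7 : (y : ℝ) ≤ 2 * (c * L * Real.log L) := by linarith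
      have h8 : δ * L * Real.log L ≤ δ * L * Real.log y :=
        mul_le_mul_of_nonneg_left hy5 (by positivity)
      have h9 : δ = 96 * c := by rw [hc]; ring
      rw [h9] at h8 ⊢
      linarith
    rw [← Real.log_le_log_iff hW0 (by linarith), hx, Real.log_rpow (by linarith)]
    linarith
  set T := (Icc Q (2 * Q)).filter Nat.Prime with hT
  have hT1 : ∀ q ∈ T, q.Prime := fun q hq => (Finset.mem_filter.mp hq).2
  refine ⟨T.filter (fun q => ¬ Good q (DD y) Y), ?_, ?_⟩
  · have h5 := card_not_good T hT1 (DD y) Y (by omega)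
    have h6 := (Nat.cast_le (α := ℝ)).mpr h5
    push_cast at h6
    rw [← hW] at h6
    have h7 : (Nat.log 2 (Y * DD y) : ℝ) ≤ 4 * L ^ 4 := by
      have h8 : Y * DD y ≤ 2 ^ (Nat.log 2 Q + 1 + y * y) := by
        rw [pow_add]
        exact Nat.mul_le_mul (hYQ.trans (Nat.lt_pow_succ_log_self (by norm_num) Q).le) (DD_le y)
      have h9 := Nat.log_mono_right (b := 2) h8
      rw [Nat.log_pow (by norm_num)] at h9
      have h10 := (Nat.cast_le (α := ℝ)).mpr h9
      push_cast at h10
      have h11 := natlog_le Q (by omega)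
      rw [← hLdef] at h11
      have h12 : (y : ℝ) * y ≤ L ^ 2 * L ^ 2 := mul_le_mul hy3 hy3 (by positivity) (by positivity)
      nlinarith
    calc _ ≤ (Y : ℝ) * W * W * (Nat.log 2 (Y * DD y) : ℝ) := h6
      _ ≤ (2 * x ^ 3) * x * x * (4 * L ^ 4) := by gcongr
      _ = x ^ 5 * (8 * L ^ 4) := by ring
      _ ≤ x ^ 5 * x := by gcongr
      _ = x ^ 6 := by ring
      _ ≤ x ^ 8 := pow_le_pow_right₀ hx1 (by norm_num)
      _ = _ := hx8
  · intro q _ hp hq hE w hw
    have hG : Good q (DD y) Y := by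
      by_contra h
      exact hE (Finset.mem_filter.mpr ⟨Finset.mem_filter.mpr ⟨hq, hp⟩, h⟩)
    rw [Finset.mem_Icc] at hq
    have hq1 : (Q : ℝ) ≤ q := by exact_mod_cast hq.1
    have hq2 : (q : ℝ) ≤ 2 * Q := by exact_mod_cast hq.2
    have hcop : Nat.Coprime (DD y) q := by
      rw [Nat.coprime_comm, Nat.Prime.coprime_iff_not_dvd hp]
      intro h
      have := prime_dvd_DD hp h
      omega
    have hlow := lower_count (q := q) (w := -w) (by rw [norm_neg, hw]) hcop hG (by omega) hyY C hC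
      (by linarith)
    rw [← hW] at hlow
    obtain ⟨hl1, hl2⟩ := l_bound hL hQ hq.1 hq.2
    have hap := approx (q := q) Y (by omega) (hYQ.trans hq.1) hp.two_le (10 * L) hl2 (by nlinarith)
    set H := univ.filter (fun χ : DirichletCharacter ℂ q =>
      Real.log y - (4 + 2 * C) ≤ (-w * P χ Y).re) with hH
    set Ex := univ.filter (fun χ : DirichletCharacter ℂ q => χ ≠ 1 ∧ 1 < ‖LD χ + P χ Y‖) with hEx
    set G := univ.filter (fun χ : DirichletCharacter ℂ q => χ ≠ 1 ∧
          Real.log (Real.log q) + Real.log (Real.log (Real.log q)) - (7 + 2 * C - Real.log c) ≤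
            (w * LD χ).re) with hGd
    have hl0 : L ≤ Real.log q := Real.log_le_log (by linarith) hq1
    have hlog2 := Real.log_two_lt_d9
    have h8 : Real.log (Real.log q) ≤ Real.log L + 1 := by
      have := Real.log_le_log (by linarith) hl1
      rw [Real.log_mul (by norm_num) (by linarith)] at this
      linarith
    have h9 : Real.log (Real.log (Real.log q)) ≤ Real.log (Real.log L) + 1 := by
      have h10 : Real.log L ≤ Real.log (Real.log q) := Real.log_le_log (by linarith) hl0
      have := Real.log_le_log (by linarith)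
        (show Real.log (Real.log q) ≤ 2 * Real.log L by linarith)
      rw [Real.log_mul (by norm_num) (by linarith)] at this
      linarith
    have h10 : H ⊆ G ∪ (Ex ∪ {1}) := by
      intro χ hχ
      simp only [hH, hGd, hEx, Finset.mem_filter, Finset.mem_univ, true_and, Finset.mem_union,
        Finset.mem_singleton] at hχ ⊢
      by_contra hcon
      push Not at hcon
      obtain ⟨h11, h12, h13⟩ := hcon
      have h14 := h11 h13
      have h15 := h12 h13
      have h16 : w * LD χ = w * (LD χ + P χ Y) + -w * P χ Y := by ring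
      rw [h16, Complex.add_re] at h14
      have h17 := Complex.abs_re_le_norm (w * (LD χ + P χ Y))
      rw [norm_mul, hw, one_mul] at h17
      have h18 := (abs_le.mp (h17.trans h15)).1
      linarith
    have h11 := (Finset.card_le_card h10).trans ((Finset.card_union_le _ _).trans
      (Nat.add_le_add_left (Finset.card_union_le _ _) _))
    rw [Finset.card_singleton] at h11
    have h12 := (Nat.cast_le (α := ℝ)).mpr h11
    push_cast at h12
    have hx0 : 0 < x := by linarith
    have h13 : (q : ℝ) / x ^ 2 ≤ H.card := by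
      rw [div_le_iff₀ (by positivity)]
      rw [Nat.totient_prime hp, Nat.cast_sub hp.one_le] at hlow
      push_cast at hlow
      have h14 : Real.log Y ≤ L := Real.log_le_log (by linarith) (by exact_mod_cast hYQ)
      have h15 : W * (Real.log Y + 6) ≤ x * (x / 2) := by
        refine mul_le_mul hWx ?_ (by linarith [Real.log_natCast_nonneg Y]) hx0.le
        nlinarith
      have h16 : (H.card : ℝ) * (W * (Real.log Y + 6)) ≤ H.card * (x * (x / 2)) :=
        mul_le_mul_of_nonneg_left h15 (by positivity)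
      nlinarith
    have h14 : (Ex.card : ℝ) ≤ q / x ^ 3 * (160 * 10 ^ 6 * L ^ 6) := by
      refine hap.trans ?_
      have h15 : (q : ℝ) / Y ≤ q / x ^ 3 := div_le_div_of_nonneg_left (by positivity)
        (by positivity) hY1
      calc 160 * ((q : ℝ) / Y) * (10 * L) ^ 6 ≤ 160 * (q / x ^ 3) * (10 * L) ^ 6 := by gcongr
        _ = _ := by ring
    have h15 : 1 ≤ (q : ℝ) / x ^ 3 := by
      rw [le_div_iff₀ (by positivity)]; linarith
    have h16 : (q : ℝ) ^ (1 - ε) ≤ q / x ^ 3 := by
      rw [Real.rpow_sub (by linarith), Real.rpow_one]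
      refine div_le_div_of_nonneg_left (by positivity) (by positivity) (hx3.trans ?_)
      rw [hx8]
      exact Real.rpow_le_rpow (by linarith) hq1 hε.le
    have h17 : (q : ℝ) / x ^ 2 = q / x ^ 3 * x := by field_simp
    have h18 : 1 ≤ L ^ 6 := one_le_pow₀ (by linarith)
    have h19 : (q : ℝ) / x ^ 3 * (2 + 160 * 10 ^ 6 * L ^ 6) ≤ q / x ^ 3 * x :=
      mul_le_mul_of_nonneg_left (by linarith) (by linarith)
    nlinarith

end Pool.Agent.MP_34d6af_nt
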